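import Mathlib

/-!
# Polynomials of odd degree whose real roots stay in an interval
-/

set_option autoImplicit false

open Polynomial

namespace Pool.Agent.H70.N6

section locr

variable {k : Type} [Field k] [CharZero k]

/-- the quadratic factor -/
noncomputable def qf (a : ℕ) : k[X] := (X - C (a : k)) ^ 2 + 1

theorem qf_monic (a : ℕ) : (qf a : k[X]).Monic := by
  unfold qf
  monicity!

theorem qf_deg (a : ℕ) : (qf a : k[X]).natDegree = 2 := by
  unfold qf
  compute_degree!

theorem qf_der (a : ℕ) : derivative (qf a : k[X]) = 2 * (X - C (a : k)) := by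
  unfold qf
  rw [derivative_add, derivative_one, add_zero, derivative_pow, derivative_X_sub_C]
  simp [C_ofNat]

theorem qf_sep (a : ℕ) : (qf a : k[X]).Separable := by
  refine ⟨1, -(C (1 / 2) * (X - C (a : k))), ?_⟩
  have h2 : (C (1 / 2 : k) : k[X]) * 2 = 1 := by
    have : (2 : k[X]) = C 2 := (C_ofNat 2).symm
    rw [this, ← C_mul]
    norm_num
  rw [qf_der]
  unfold qf
  linear_combination (-(X - C (a : k)) ^ 2) * h2

/-- a quadratic factor prime to a given polynomial -/
theorem exists_qf (Q : k[X]) (hQ : Q ≠ 0) : ∃ a : ℕ, IsCoprime (qf a) Q := by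
  classical
  obtain ⟨i, hi⟩ := IsAlgClosed.exists_pow_nat_eq (-1 : AlgebraicClosure k) (n := 2) (by norm_num)
  have hQ' : Q.map (algebraMap k (AlgebraicClosure k)) ≠ 0 := by
    rwa [Ne, Polynomial.map_eq_zero]
  have hfin : ∀ s : AlgebraicClosure k, {a : ℕ | aeval ((a : AlgebraicClosure k) + s) Q = 0}.Finite := by
    intro s
    refine Set.Finite.of_finite_image (f := fun a : ℕ => (a : AlgebraicClosure k) + s) ?_ ?_
    · refine (Q.map (algebraMap k (AlgebraicClosure k))).roots.toFinset.finite_toSet.subset ?_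
      rintro _ ⟨a, ha, rfl⟩
      simp only [Finset.mem_coe, Multiset.mem_toFinset]
      rw [mem_roots hQ', IsRoot, eval_map_algebraMap]
      exact ha
    · intro a _ b _ hab
      exact_mod_cast add_right_cancel hab
  obtain ⟨a, ha⟩ := ((hfin i).union (hfin (-i))).exists_notMem
  refine ⟨a, ?_⟩
  rw [Polynomial.isCoprime_iff_aeval_ne_zero_of_isAlgClosed k (AlgebraicClosure k)]
  intro z
  by_cases hz : aeval z (qf a : k[X]) = 0
  · right
    intro h0
    apply ha
    unfold qf at hz
    simp only [map_add, map_pow, map_sub, aeval_X, map_natCast, map_one] at hz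
    have hz2 : (z - a - i) * (z - a + i) = 0 := by
      linear_combination hz - hi
    rcases mul_eq_zero.1 hz2 with h | h
    · left
      change aeval ((a : AlgebraicClosure k) + i) Q = 0
      rw [show (a : AlgebraicClosure k) + i = z by linear_combination -h]
      exact h0
    · right
      change aeval ((a : AlgebraicClosure k) + -i) Q = 0
      rw [show (a : AlgebraicClosure k) + -i = z by linear_combination -h]
      exact h0
  · exact Or.inl hz

theorem qf_bound (φ : k →+* ℝ) (a : ℕ) (y : ℝ) :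
    1 / (2 * (1 + (a : ℝ)) ^ 2) * (1 + |y|) ^ 2 ≤ |eval₂ φ y (qf a)| := by
  have he : eval₂ φ y (qf a) = (y - a) ^ 2 + 1 := by
    unfold qf
    simp [eval₂_add, eval₂_pow, eval₂_sub]
  rw [he, abs_of_pos (show (0 : ℝ) < (y - a) ^ 2 + 1 by positivity)]
  have ha : (0 : ℝ) ≤ a := Nat.cast_nonneg a
  have h1 : |y| ≤ |y - a| + a := by
    calc |y| = |(y - a) + a| := by ring_nf
      _ ≤ |y - a| + |(a : ℝ)| := abs_add_le _ _
      _ = |y - a| + a := by rw [abs_of_nonneg ha]
  have h2 : (y - a) ^ 2 = |y - a| ^ 2 := (sq_abs _).symm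
  rw [h2]
  set u := |y - a|
  have hu : 0 ≤ u := abs_nonneg _
  have hy : 0 ≤ |y| := abs_nonneg _
  rw [div_mul_eq_mul_div, one_mul, div_le_iff₀ (by positivity)]
  have h3 : (1 + |y|) ^ 2 ≤ (1 + a + u) ^ 2 := by
    apply pow_le_pow_left₀ (by positivity)
    linarith
  nlinarith [sq_nonneg (1 + a - u), mul_nonneg ha hu, mul_nonneg ha ha,
    mul_nonneg (mul_nonneg ha ha) (mul_nonneg hu hu), mul_nonneg ha (mul_nonneg hu hu)]

/-- a product of quadratic factors -/
theorem exists_prod (φ : k →+* ℝ) (m : ℕ) (Q : k[X]) (hQ : Q ≠ 0) :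
    ∃ (G : k[X]) (c : ℝ), 0 < c ∧ G.Monic ∧ G.natDegree = 2 * m ∧ IsCoprime G Q ∧
      G.Separable ∧ ∀ y : ℝ, c * (1 + |y|) ^ (2 * m) ≤ |eval₂ φ y G| := by
  induction m with
  | zero =>
    refine ⟨1, 1, one_pos, monic_one, by simp, isCoprime_one_left, separable_one, ?_⟩
    intro y
    simp
  | succ m ih =>
    obtain ⟨G, c, hc, hm, hd, hco, hs, hb⟩ := ih
    obtain ⟨a, ha⟩ := exists_qf (Q * G) (mul_ne_zero hQ hm.ne_zero)
    refine ⟨qf a * G, 1 / (2 * (1 + (a : ℝ)) ^ 2) * c, by positivity, (qf_monic a).mul hm, ?_, ?_,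
      ?_, ?_⟩
    · rw [(qf_monic a).natDegree_mul hm, qf_deg, hd]
      ring
    · exact IsCoprime.mul_left ha.of_mul_right_left hco
    · exact (qf_sep a).mul hs ha.of_mul_right_right
    · intro y
      rw [eval₂_mul, abs_mul]
      calc 1 / (2 * (1 + (a : ℝ)) ^ 2) * c * (1 + |y|) ^ (2 * (m + 1)) =
          (1 / (2 * (1 + (a : ℝ)) ^ 2) * (1 + |y|) ^ 2) * (c * (1 + |y|) ^ (2 * m)) := by ring
        _ ≤ |eval₂ φ y (qf a)| * |eval₂ φ y G| := by
          apply mul_le_mul (qf_bound φ a y) (hb y) (by positivity) (abs_nonneg _)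

/-- the real roots of the polynomials near `G` are near `x` -/
theorem locR (φ : k →+* ℝ) (P : k[X]) (hP : P ≠ 0) (x η : ℝ) (hη : 0 < η) (m : ℕ) :
    ∃ (G : k[X]) (ε : ℝ), 0 < ε ∧ G.Monic ∧ G.natDegree = 2 * m + 1 ∧ IsCoprime G P ∧
      G.Separable ∧ ∀ G' : k[X], G'.Monic → G'.natDegree = 2 * m + 1 →
      (∀ i, |φ ((G' - G).coeff i)| < ε) → ∀ t : ℝ, eval₂ φ t G' = 0 → |t - x| < η := by
  classical
  -- the rational root
  obtain ⟨q, hq1, hq2⟩ : ∃ q : ℚ, |(q : ℝ) - x| < η / 2 ∧ eval (q : k) P ≠ 0 := by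
    have hinf : {q : ℚ | |(q : ℝ) - x| < η / 2}.Infinite := by
      have h1 : ∀ n : ℕ, ∃ q : ℚ, x + η / 2 / (n + 2) < q ∧ q < x + η / 2 / (n + 1) := by
        intro n
        apply exists_rat_btwn
        have : η / 2 / ((n : ℝ) + 2) < η / 2 / (n + 1) := by
          apply div_lt_div_of_pos_left (by positivity) (by positivity) (by linarith)
        linarith
      choose f hf1 hf2 using h1
      refine Set.infinite_of_injective_forall_mem (f := f) ?_ ?_
      · have hanti : StrictAnti f := by
          apply strictAnti_nat_of_succ_lt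
          intro n
          have h2 := hf2 (n + 1)
          have h3 := hf1 n
          have h4 : ((n + 1 : ℕ) : ℝ) + 1 = n + 2 := by push_cast; ring
          rw [h4] at h2
          exact_mod_cast h2.trans h3
        exact hanti.injective
      · intro n
        change |(f n : ℝ) - x| < η / 2
        have h2 := hf1 n
        have h3 := hf2 n
        have h4 : 0 < η / 2 / ((n : ℝ) + 2) := by positivity
        have h5 : η / 2 / ((n : ℝ) + 1) ≤ η / 2 := by
          apply div_le_self (by positivity)
          have : (0 : ℝ) ≤ n := Nat.cast_nonneg n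
          linarith
        rw [abs_of_pos (by linarith)]
        linarith
    have hfin : {q : ℚ | eval (q : k) P = 0}.Finite := by
      refine Set.Finite.of_finite_image (f := fun q : ℚ => (q : k)) ?_ ?_
      · refine P.roots.toFinset.finite_toSet.subset ?_
        rintro _ ⟨a, ha, rfl⟩
        simp only [Finset.mem_coe, Multiset.mem_toFinset]
        rw [mem_roots hP]
        exact ha
      · intro a _ b _ hab
        have hab' : (a : k) = (b : k) := hab
        exact_mod_cast hab'
    obtain ⟨q, h1, h2⟩ := hinf.exists_notMem_finite hfin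
    exact ⟨q, h1, h2⟩
  have hXq : IsCoprime (X - C (q : k)) P :=
    ((Polynomial.irreducible_X_sub_C (q : k)).coprime_iff_not_dvd).2 fun h =>
      hq2 (dvd_iff_isRoot.1 h)
  obtain ⟨G, c, hc, hm, hd, hco, hs, hb⟩ := exists_prod φ m (P * (X - C (q : k)))
    (mul_ne_zero hP (X_sub_C_ne_zero _))
  have hcp : IsCoprime (X - C (q : k)) G := hco.of_mul_right_right.symm
  refine ⟨(X - C (q : k)) * G, c * η / (4 * (2 * m + 1)), by positivity,
    (monic_X_sub_C _).mul hm, ?_, ?_, ?_, ?_⟩
  · rw [(monic_X_sub_C _).natDegree_mul hm, natDegree_X_sub_C, hd]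
    ring
  · exact IsCoprime.mul_left hXq hco.of_mul_right_left
  · exact (separable_X_sub_C).mul hs hcp
  · intro G' hm' hd' hcl t ht
    set G1 := (X - C (q : k)) * G with hG1
    have hG1m : G1.Monic := (monic_X_sub_C _).mul hm
    have hG1d : G1.natDegree = 2 * m + 1 := by
      rw [hG1, (monic_X_sub_C _).natDegree_mul hm, natDegree_X_sub_C, hd]
      ring
    set E := G' - G1 with hE
    have hEd : E.natDegree < 2 * m + 1 := by
      have h1 : E.degree < G'.degree := degree_sub_lt (by
        rw [degree_eq_natDegree hm'.ne_zero, degree_eq_natDegree hG1m.ne_zero, hd', hG1d])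
        hm'.ne_zero (by rw [hm'.leadingCoeff, hG1m.leadingCoeff])
      by_cases h0 : E = 0
      · rw [h0, natDegree_zero]
        omega
      · have h2 := natDegree_lt_natDegree h0 h1
        rw [hd'] at h2
        exact h2
    have h1 : |eval₂ φ t E| ≤ c * η / (4 * (2 * m + 1)) * ((2 * m + 1) * (1 + |t|) ^ (2 * m)) := by
      rw [eval₂_eq_sum_range' φ hEd]
      calc |∑ i ∈ Finset.range (2 * m + 1), φ (E.coeff i) * t ^ i| ≤
          ∑ i ∈ Finset.range (2 * m + 1), |φ (E.coeff i) * t ^ i| :=
            Finset.abs_sum_le_sum_abs _ _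
        _ ≤ ∑ i ∈ Finset.range (2 * m + 1), c * η / (4 * (2 * m + 1)) * (1 + |t|) ^ (2 * m) := by
          apply Finset.sum_le_sum
          intro i hi
          rw [Finset.mem_range] at hi
          rw [abs_mul, abs_pow]
          apply mul_le_mul (hcl i).le _ (by positivity) (by positivity)
          calc |t| ^ i ≤ (1 + |t|) ^ i := by
                apply pow_le_pow_left₀ (abs_nonneg t)
                linarith [abs_nonneg t]
            _ ≤ (1 + |t|) ^ (2 * m) := by
                apply pow_le_pow_right₀ (by linarith [abs_nonneg t]) (by omega)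
        _ = c * η / (4 * (2 * m + 1)) * ((2 * m + 1) * (1 + |t|) ^ (2 * m)) := by
          rw [Finset.sum_const, Finset.card_range, nsmul_eq_mul]
          push_cast
          ring
    have h2 : eval₂ φ t G1 = -eval₂ φ t E := by
      rw [hE, eval₂_sub, ht]
      ring
    have h3 : |t - q| * (c * (1 + |t|) ^ (2 * m)) ≤ |eval₂ φ t G1| := by
      rw [hG1, eval₂_mul, abs_mul]
      have h4 : eval₂ φ t (X - C (q : k)) = t - q := by simp [eval₂_sub]
      rw [h4]
      exact mul_le_mul_of_nonneg_left (hb t) (abs_nonneg _)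
    rw [h2, abs_neg] at h3
    have h5 := h3.trans h1
    have h6 : |t - q| ≤ η / 4 := by
      have h7 : 0 < c * (1 + |t|) ^ (2 * m) := by
        have := abs_nonneg t
        positivity
      have h8 : c * η / (4 * (2 * m + 1)) * ((2 * m + 1) * (1 + |t|) ^ (2 * m)) =
          η / 4 * (c * (1 + |t|) ^ (2 * m)) := by
        have h9 : (2 * (m : ℝ) + 1) ≠ 0 := by positivity
        field_simp
      rw [h8] at h5
      exact le_of_mul_le_mul_right h5 h7
    calc |t - x| = |(t - q) + (q - x)| := by ring_nf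
      _ ≤ |t - q| + |(q : ℝ) - x| := abs_add_le _ _
      _ < η := by linarith

end locr

end Pool.Agent.H70.N6
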