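import Pool.Agent.H65.N6P.Targets
import Pool.Agent.H70.N6.LocR

/-!
# Symbols at real places
-/

set_option autoImplicit false

open Polynomial NumberField IsDedekindDomain Matrix Pool.Agent.H32.QC Pool.Agent.H34.N6
open Pool.Agent.H65.N6P Filter

namespace Pool.Agent.H70.N6

theorem sol_pos_left {a b : ℝ} (ha : 0 < a) : Sol a b := by
  refine ⟨1, 0, Real.sqrt a, Or.inl one_ne_zero, ?_⟩
  rw [Real.sq_sqrt ha.le]
  ring

theorem sol_pos_right {a b : ℝ} (hb : 0 < b) : Sol a b := by
  refine ⟨0, 1, Real.sqrt b, Or.inr (Or.inl one_ne_zero), ?_⟩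
  rw [Real.sq_sqrt hb.le]
  ring

theorem pos_of_sol {a b : ℝ} (ha : a < 0) (hb : b ≠ 0) (h : Sol a b) : 0 < b := by
  obtain ⟨x, y, z, hne, he⟩ := h
  by_contra hb'
  have hb2 : b < 0 := lt_of_le_of_ne (not_lt.1 hb') hb
  have h1 : a * x ^ 2 ≤ 0 := mul_nonpos_of_nonpos_of_nonneg ha.le (sq_nonneg x)
  have h2 : b * y ^ 2 ≤ 0 := mul_nonpos_of_nonpos_of_nonneg hb2.le (sq_nonneg y)
  have h3 := sq_nonneg z
  have hx : a * x ^ 2 = 0 := by linarith
  have hy : b * y ^ 2 = 0 := by linarith
  have hz : z ^ 2 = 0 := by linarith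
  have hx0 : x = 0 := by
    rcases mul_eq_zero.1 hx with h | h
    · exact absurd h ha.ne
    · exact pow_eq_zero_iff (two_ne_zero) |>.1 h
  have hy0 : y = 0 := by
    rcases mul_eq_zero.1 hy with h | h
    · exact absurd h hb
    · exact pow_eq_zero_iff (two_ne_zero) |>.1 h
  have hz0 : z = 0 := pow_eq_zero_iff (two_ne_zero) |>.1 hz
  rcases hne with h | h | h
  · exact h hx0
  · exact h hy0
  · exact h hz0

theorem hil_one {a b : ℝ} (h : Sol a b) : hil a b = 1 := by
  unfold hil
  rw [if_pos h]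

theorem sol_of_hil {a b : ℝ} (h : hil a b = 1) : Sol a b := by
  by_contra h0
  unfold hil at h
  rw [if_neg h0] at h
  norm_num at h

/-- a property of real roots gives `LocOK` at a real place -/
theorem locOK_real {k : Type} [Field k] [NumberField k] (φ : k →+* ℝ) (P : k[X]) (hP : P ≠ 0)
    (x η : ℝ) (hη : 0 < η) (N : ℕ) (hN : Odd N)
    (R : ∀ (K : Type) [Field K] [NumberField K] [Algebra k K], Pl K → K → Prop)
    (hR : ∀ (K : Type) [Field K] [NumberField K] [Algebra k K] (ψ : K →+* ℝ) (θ : K),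
      ψ.comp (algebraMap k K) = φ → |ψ θ - x| < η → R K (Sum.inr ψ) θ) :
    LocOK P R (Sum.inr φ) N := by
  obtain ⟨m, rfl⟩ := hN
  obtain ⟨G, ε, hε, hm, hd, hco, hs, h⟩ := locR φ P hP x η hη m
  refine ⟨G, ε, hε, hm, hd, hco, hs, ?_⟩
  intro G' hm' hd' hcl K _ _ _ w hw θ _ hθ
  rcases w with w | ψ
  · simp [bel] at hw
  · have hψ : ψ.comp (algebraMap k K) = φ := by
      simpa [bel] using hw
    refine hR K ψ θ hψ (h G' hm' hd' hcl (ψ θ) ?_)
    have h1 : eval₂ φ (ψ θ) G' = ψ (aeval θ G') := by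
      rw [aeval_def, hom_eval₂, hψ]
    rw [h1, hθ, map_zero]

theorem pf_LSR : T_LSR := by
  intro k _ _ D a c ha hc hD _ hev v hor N hN
  have hva : v a ≠ 0 := (map_ne_zero v).2 ha
  have hvc : v c ≠ 0 := (map_ne_zero v).2 hc
  obtain ⟨x, η, hη, hgood⟩ : ∃ x η : ℝ, 0 < η ∧ ∀ t : ℝ, |t - x| < η →
      Sol (v a) (v c * eval₂ v t D) := by
    rcases lt_or_gt_of_ne hva with hneg | hpos
    · -- a point where the value is positive
      obtain ⟨z, hz⟩ : ∃ z : ℝ, 0 < v c * eval₂ v z D := by
        rcases hor with ⟨z, hz, hs⟩ | hs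
        · exact ⟨z, pos_of_sol hneg (mul_ne_zero hvc hz) hs⟩
        · have h1 : Sol (v a) (v c) := sol_of_hil hs
          have hc' := pos_of_sol hneg hvc h1
          by_cases hd : D.natDegree = 0
          · refine ⟨0, ?_⟩
            rw [hD.natDegree_eq_zero.1 hd]
            simpa using hc'
          · have h2 : (D.map v).Monic := hD.map v
            have h3 : 0 < (D.map v).degree := by
              rw [degree_map]
              exact natDegree_pos_iff_degree_pos.1 (Nat.pos_of_ne_zero hd)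
            have h4 := Polynomial.tendsto_atTop_of_leadingCoeff_nonneg (D.map v) h3
              (by rw [h2.leadingCoeff]; exact zero_le_one)
            obtain ⟨z, hz⟩ := (h4.eventually_gt_atTop 0).exists
            refine ⟨z, mul_pos hc' ?_⟩
            rwa [eval_map] at hz
      have hcont : Continuous fun t : ℝ => v c * eval₂ v t D := by
        have : (fun t : ℝ => v c * eval₂ v t D) = fun t => v c * (D.map v).eval t := by
          funext t
          rw [eval_map]
        rw [this]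
        fun_prop
      have hopen : IsOpen {t : ℝ | 0 < v c * eval₂ v t D} := isOpen_lt continuous_const hcont
      obtain ⟨η, hη, hball⟩ := Metric.isOpen_iff.1 hopen z hz
      refine ⟨z, η, hη, fun t ht => sol_pos_right ?_⟩
      have : t ∈ Metric.ball z η := by rw [Metric.mem_ball, Real.dist_eq]; exact ht
      exact hball this
    · exact ⟨0, 1, one_pos, fun t _ => sol_pos_left hpos⟩
  refine locOK_real v D hD.ne_zero x η hη N hN _ ?_
  intro K _ _ _ ψ θ hψ hθ
  have h1 := hgood (ψ θ) hθ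
  have e1 : ψ (algebraMap k K a) = v a := by rw [← hψ]; rfl
  have e2 : ψ (algebraMap k K c * aeval θ D) = v c * eval₂ v (ψ θ) D := by
    rw [map_mul, aeval_def, hom_eval₂, hψ, ← hψ]
    rfl
  change hil (ψ (algebraMap k K a)) (ψ (algebraMap k K c * aeval θ D)) = 1
  rw [e1, e2]
  exact hil_one h1

end Pool.Agent.H70.N6
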