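import Pool.Agent.H70.N6.LRb
import Pool.Agent.H70.N6.LSR

/-!
# Two quadrics at the real places
-/

set_option autoImplicit false

open Polynomial Matrix ComplexConjugate Pool.Agent.H34.N6

namespace Pool.Agent.H70.N6

theorem re_zero {g w a : ℂ} (hw : w ^ 2 = Complex.I * g) (h : (w * a).im = 0) :
    (g * a ^ 2).re = 0 := by
  have h1 : (Complex.I * (g * a ^ 2)).im = 0 := by
    have h2 : Complex.I * (g * a ^ 2) = (w * a) * (w * a) := by
      linear_combination (-a ^ 2) * hw
    rw [h2, Complex.mul_im, h]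
    ring
  rw [Complex.mul_im, Complex.I_re, Complex.I_im] at h1
  linarith

theorem pair_zero {p q a b : ℝ} (hp : 0 < p) (hq : q < 0)
    (h : Real.sqrt p * a - Real.sqrt (-q) * b = 0) : p * a ^ 2 + q * b ^ 2 = 0 := by
  have h1 : Real.sqrt p ^ 2 = p := Real.sq_sqrt hp.le
  have h2 : Real.sqrt (-q) ^ 2 = -q := Real.sq_sqrt (by linarith)
  have h3 : p * a ^ 2 + q * b ^ 2 = (Real.sqrt p * a) ^ 2 - (Real.sqrt (-q) * b) ^ 2 := by
    rw [mul_pow, mul_pow, h1, h2]
    ring
  rw [h3, sub_eq_zero.1 h, sub_self]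

/-- signature one gives a totally isotropic subspace of dimension three -/
theorem ti_real (P D : ℝ[X]) (t : ℝ) (hP : P.Monic) (h7 : P.natDegree = 7) (hs : P.Separable)
    (hne : ∀ e ∈ P.roots.toFinset, gr P D t e ≠ 0)
    (hsg : ∑ e ∈ P.roots.toFinset, sg (gr P D t e) = 1) : TI (ft P D t) 3 := by
  classical
  set R := P.roots.toFinset with hR
  set Zp := R.filter (fun e => 0 < gr P D t e) with hZp
  set Zm := R.filter (fun e => ¬ 0 < gr P D t e) with hZm
  set H := (rc P).filter (fun z => 0 < z.im) with hH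
  have hcount : Zp.card = Zm.card + 1 := by
    have h1 := Finset.sum_filter_add_sum_filter_not R (fun e => 0 < gr P D t e)
      (fun e => sg (gr P D t e))
    have e1 : ∑ e ∈ R.filter (fun e => 0 < gr P D t e), sg (gr P D t e) =
        ∑ e ∈ R.filter (fun e => 0 < gr P D t e), 1 :=
      Finset.sum_congr rfl fun e he => sg_pos (Finset.mem_filter.1 he).2
    have e2 : ∑ e ∈ R.filter (fun e => ¬ 0 < gr P D t e), sg (gr P D t e) =
        ∑ e ∈ R.filter (fun e => ¬ 0 < gr P D t e), (-1) :=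
      Finset.sum_congr rfl fun e he => if_neg (Finset.mem_filter.1 he).2
    rw [hsg, e1, e2, Finset.sum_const, Finset.sum_const] at h1
    simp only [nsmul_eq_mul, mul_one, mul_neg] at h1
    have h2 : (Zp.card : ℤ) = (Zm.card : ℤ) + 1 := by linarith
    exact_mod_cast h2
  have hcR : R.card = 2 * Zm.card + 1 := by
    have h1 : Zp.card + Zm.card = R.card := Finset.card_filter_add_card_filter_not _
    omega
  have hcH : Zm.card + H.card = 3 := by
    have h1 := card_eq hP hs
    rw [h7] at h1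
    change 7 = R.card + 2 * H.card at h1
    omega
  obtain ⟨e0, he0⟩ : Zp.Nonempty := by
    rw [← Finset.card_pos]
    omega
  have hce : Zm.card = (Zp.erase e0).card := by
    rw [Finset.card_erase_of_mem he0]
    omega
  let f : Zm ≃ (Zp.erase e0 : Finset ℝ) := Finset.equivOfCardEq hce
  have hroot : ∀ z : ℂ, ∃ w : ℂ, w ^ 2 = Complex.I * gc P D t z := fun z =>
    IsAlgClosed.exists_pow_nat_eq _ (by norm_num)
  choose w hw using hroot
  -- the linear conditions
  let er : ℝ → (Fin 7 → ℝ) →ₗ[ℝ] ℝ := fun e => (leval e) ∘ₗ polL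
  let L : (Fin 7 → ℝ) →ₗ[ℝ] (Option (Zm ⊕ H) → ℝ) := LinearMap.pi fun o =>
    match o with
    | none => er e0
    | some (Sum.inl a) => Real.sqrt (gr P D t (f a : ℝ)) • er (f a : ℝ) -
        Real.sqrt (-gr P D t (a : ℝ)) • er (a : ℝ)
    | some (Sum.inr z) => Complex.imLm ∘ₗ ((LinearMap.mulLeft ℝ (w (z : ℂ))) ∘ₗ ev (z : ℂ))
  have hker : ∀ x : Fin 7 → ℝ, L x = 0 → lam P (D * (X - C t) * pol x * pol x) = 0 := by
    intro x hx
    have h0 : eval e0 (pol x) = 0 := congrFun hx none
    have h1 : ∀ a : Zm, Real.sqrt (gr P D t (f a : ℝ)) * eval (f a : ℝ) (pol x) -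
        Real.sqrt (-gr P D t (a : ℝ)) * eval (a : ℝ) (pol x) = 0 := fun a =>
      congrFun hx (some (Sum.inl a))
    have h2 : ∀ z : H, (w (z : ℂ) * ev (z : ℂ) x).im = 0 := fun z =>
      congrFun hx (some (Sum.inr z))
    rw [lam_split P D t hP hs x (fun z hz => re_zero (hw z) (h2 ⟨z, hz⟩))]
    change ∑ e ∈ R, _ = 0
    rw [← Finset.sum_filter_add_sum_filter_not R (fun e => 0 < gr P D t e)]
    change ∑ e ∈ Zp, _ + ∑ e ∈ Zm, _ = 0
    rw [← Finset.add_sum_erase Zp _ he0, h0, zero_pow two_ne_zero, mul_zero, zero_add,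
      ← Finset.sum_coe_sort (Zp.erase e0), ← Finset.sum_coe_sort Zm, ← Equiv.sum_comp f,
      ← Finset.sum_add_distrib]
    apply Finset.sum_eq_zero
    intro a _
    apply pair_zero _ _ (h1 a)
    · exact (Finset.mem_filter.1 (Finset.mem_erase.1 (f a).2).2).2
    · have h3 := Finset.mem_filter.1 a.2
      exact lt_of_le_of_ne (not_lt.1 h3.2) (hne _ h3.1)
  -- the dimension
  have hdim : 3 ≤ Module.finrank ℝ (LinearMap.ker L) := by
    have h1 := LinearMap.finrank_range_add_finrank_ker L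
    rw [Module.finrank_fin_fun] at h1
    have h2 : Module.finrank ℝ (LinearMap.range L) ≤ 4 := by
      refine (Submodule.finrank_le _).trans ?_
      rw [Module.finrank_fintype_fun_eq_card, Fintype.card_option, Fintype.card_sum,
        Fintype.card_coe, Fintype.card_coe, hcH]
    omega
  obtain ⟨b, hb⟩ := exists_linearIndependent_of_le_finrank hdim
  refine ⟨fun i => (b i : Fin 7 → ℝ), ?_, ?_⟩
  · exact hb.map' (LinearMap.ker L).subtype (Submodule.ker_subtype _)
  · intro i j
    rw [ft_bilin]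
    have h1 := hker _ (LinearMap.mem_ker.1 (b i).2)
    have h2 := hker _ (LinearMap.mem_ker.1 (b j).2)
    have h3 := hker _ (LinearMap.mem_ker.1 (b i + b j).2)
    rw [Submodule.coe_add, pol_add] at h3
    have h4 : D * (X - C t) * (pol (b i : Fin 7 → ℝ) + pol (b j : Fin 7 → ℝ)) *
        (pol (b i : Fin 7 → ℝ) + pol (b j : Fin 7 → ℝ)) =
        D * (X - C t) * pol (b i : Fin 7 → ℝ) * pol (b i : Fin 7 → ℝ) +
        D * (X - C t) * pol (b j : Fin 7 → ℝ) * pol (b j : Fin 7 → ℝ) +
        C 2 * (D * (X - C t) * pol (b i : Fin 7 → ℝ) * pol (b j : Fin 7 → ℝ)) := by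
      rw [show (C 2 : ℝ[X]) = 2 from rfl]
      ring
    rw [h4, lam_add, lam_add, lam_C_mul, h1, h2] at h3
    linarith

/-- the good interval -/
theorem exists_interval (P D : ℝ[X]) (hP : P.Monic) (h7 : P.natDegree = 7) (hs : P.Separable)
    (hD : IsCoprime P D) : ∃ x η : ℝ, 0 < η ∧ ∀ t : ℝ, |t - x| < η → TI (ft P D t) 3 := by
  classical
  set R := P.roots.toFinset with hR
  have hmem : ∀ e, e ∈ R ↔ eval e P = 0 := by
    intro e
    rw [hR, Multiset.mem_toFinset, mem_roots hP.ne_zero, IsRoot.def]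
  have hodd : Odd R.card := by
    have h1 := card_eq hP hs
    rw [h7] at h1
    change 7 = R.card + _ at h1
    rw [Nat.odd_iff]
    omega
  have hD0 : ∀ e ∈ R, eval e D ≠ 0 := by
    intro e he h0
    obtain ⟨a, b, hab⟩ := hD
    have h1 := congrArg (eval e) hab
    rw [eval_add, eval_mul, eval_mul, (hmem e).1 he, h0, mul_zero, mul_zero, add_zero,
      eval_one] at h1
    exact zero_ne_one h1
  have hP0 : ∀ e ∈ R, eval e (derivative P) ≠ 0 := by
    intro e he h0
    obtain ⟨a, b, hab⟩ := hs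
    have h1 := congrArg (eval e) hab
    rw [eval_add, eval_mul, eval_mul, (hmem e).1 he, h0, mul_zero, mul_zero, add_zero,
      eval_one] at h1
    exact zero_ne_one h1
  obtain ⟨x, hx, hsum⟩ := exists_one (fun e => sg (eval e D / eval e (derivative P)))
    (fun e => sg_or _) R hodd
  have hopen : IsOpen ((R : Set ℝ)ᶜ) := R.finite_toSet.isClosed.isOpen_compl
  obtain ⟨η, hη, hball⟩ := Metric.isOpen_iff.1 hopen x (by simpa using hx)
  refine ⟨x, η, hη, ?_⟩
  intro t ht
  have hfar : ∀ e ∈ R, η ≤ |e - x| := by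
    intro e he
    by_contra hcon
    have h1 : e ∈ Metric.ball x η := by
      rw [Metric.mem_ball, Real.dist_eq]
      exact not_le.1 hcon
    exact hball h1 he
  have hside : ∀ e ∈ R, sg (e - t) = sg (e - x) ∧ e - t ≠ 0 := by
    intro e he
    have h1 := hfar e he
    rw [abs_lt] at ht
    rcases abs_cases (e - x) with ⟨h2, h3⟩ | ⟨h2, h3⟩
    · rw [h2] at h1
      rw [sg_pos (show 0 < e - t by linarith [ht.2]), sg_pos (show 0 < e - x by linarith)]
      exact ⟨rfl, by linarith [ht.2]⟩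
    · rw [h2] at h1
      rw [sg_neg (show e - t < 0 by linarith [ht.1]), sg_neg (show e - x < 0 by linarith)]
      exact ⟨rfl, by linarith [ht.1]⟩
  have hgr : ∀ e, gr P D t e = eval e D / eval e (derivative P) * (e - t) := by
    intro e
    unfold gr
    rw [eval_mul, eval_sub, eval_X, eval_C]
    ring
  apply ti_real P D t hP h7 hs
  · intro e he
    rw [hgr]
    exact mul_ne_zero (div_ne_zero (hD0 e he) (hP0 e he)) (hside e he).2
  · rw [← hsum]
    apply Finset.sum_congr rfl
    intro e he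
    rw [hgr, sg_mul (div_ne_zero (hD0 e he) (hP0 e he)) (hside e he).2, (hside e he).1]

theorem pf_LR : T_LR := by
  intro k _ _ P D hP h7 hs hD φ N hN
  obtain ⟨x, η, hη, h⟩ := exists_interval (P.map φ) (D.map φ) (hP.map φ)
    (by rw [natDegree_map]; exact h7) hs.map
    (by
      have := hD.map (mapRingHom φ)
      exact this)
  refine locOK_real φ P hP.ne_zero x η hη N hN _ ?_
  intro K _ _ _ ψ θ hψ hθ
  change TI (ft (P.map (ψ.comp (algebraMap k K))) (D.map (ψ.comp (algebraMap k K))) (ψ θ)) 3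
  rw [hψ]
  exact h _ hθ

end Pool.Agent.H70.N6
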