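import Pool.Agent.H70.N6.QuU

/-!
# A frame adapted to three given vectors
-/

set_option autoImplicit false

open Matrix Polynomial Pool.Agent.H34.N6 Filter
open scoped Topology

namespace Pool.Agent.H70.N6

section adp

variable {F : Type*} [Field F]

/-- the adapted frame -/
def adp (d : F) (n : Fin 3 → Fin 7 → F) (Y : Matrix (Fin 3) (Fin 3) F) :
    Matrix (Fin 7) (Fin 7) F :=
  !![n 0 0, n 1 0, n 2 0, 0, 0, 0, 0;
     n 0 1, n 1 1, n 2 1, 0, 0, 0, 0;
     n 0 2, n 1 2, n 2 2, 0, 0, 0, 0;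
     n 0 3, n 1 3, n 2 3, 1, 0, 0, 0;
     n 0 4, n 1 4, n 2 4, -d * (Y 0 0 * n 0 3 + Y 1 0 * n 1 3 + Y 2 0 * n 2 3), Y 0 0, Y 1 0,
       Y 2 0;
     n 0 5, n 1 5, n 2 5, -d * (Y 0 1 * n 0 3 + Y 1 1 * n 1 3 + Y 2 1 * n 2 3), Y 0 1, Y 1 1,
       Y 2 1;
     n 0 6, n 1 6, n 2 6, -d * (Y 0 2 * n 0 3 + Y 1 2 * n 1 3 + Y 2 2 * n 2 3), Y 0 2, Y 1 2,
       Y 2 2]

/-- the bilinear form of `JJ d` -/
def bJ (d : F) (x y : Fin 7 → F) : F :=
  x 0 * y 4 + x 4 * y 0 + x 1 * y 5 + x 5 * y 1 + x 2 * y 6 + x 6 * y 2 + d * (x 3 * y 3)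

theorem JJ_entry (d : F) (U : Matrix (Fin 7) (Fin 7) F) (i j : Fin 7) :
    (Uᵀ * JJ d * U) i j = bJ d (fun k => U k i) (fun k => U k j) := by
  simp only [Matrix.mul_apply, Fin.sum_univ_seven, Matrix.transpose_apply, JJ, bJ]
  simp
  ring

theorem adp_orth (d : F) (n : Fin 3 → Fin 7 → F) (Y : Matrix (Fin 3) (Fin 3) F)
    (hY : ∀ m i : Fin 3, Y m 0 * n i 0 + Y m 1 * n i 1 + Y m 2 * n i 2 = if m = i then 1 else 0)
    (hn : ∀ i j, bJ d (n i) (n j) = 0) : (adp d n Y)ᵀ * JJ d * adp d n Y = JJ d := by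
  have y00 := hY 0 0
  have y01 := hY 0 1
  have y02 := hY 0 2
  have y10 := hY 1 0
  have y11 := hY 1 1
  have y12 := hY 1 2
  have y20 := hY 2 0
  have y21 := hY 2 1
  have y22 := hY 2 2
  simp only [Fin.isValue, if_true, Fin.reduceEq, if_false] at y00 y01 y02 y10 y11 y12 y20 y21 y22
  have n0 : ∀ i j, bJ d (n i) (n j) = 0 := hn
  simp only [bJ] at n0
  ext i j
  rw [JJ_entry]
  fin_cases i <;> fin_cases j <;> simp [bJ, adp, JJ]
  · linear_combination n0 0 0
  · linear_combination n0 0 1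
  · linear_combination n0 0 2
  · linear_combination (-d * n 0 3) * y00 + (-d * n 1 3) * y10 + (-d * n 2 3) * y20
  · linear_combination y00
  · linear_combination y10
  · linear_combination y20
  · linear_combination n0 1 0
  · linear_combination n0 1 1
  · linear_combination n0 1 2
  · linear_combination (-d * n 0 3) * y01 + (-d * n 1 3) * y11 + (-d * n 2 3) * y21
  · linear_combination y01
  · linear_combination y11
  · linear_combination y21
  · linear_combination n0 2 0
  · linear_combination n0 2 1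
  · linear_combination n0 2 2
  · linear_combination (-d * n 0 3) * y02 + (-d * n 1 3) * y12 + (-d * n 2 3) * y22
  · linear_combination y02
  · linear_combination y12
  · linear_combination y22
  · linear_combination (-d * n 0 3) * y00 + (-d * n 1 3) * y10 + (-d * n 2 3) * y20
  · linear_combination (-d * n 0 3) * y01 + (-d * n 1 3) * y11 + (-d * n 2 3) * y21
  · linear_combination (-d * n 0 3) * y02 + (-d * n 1 3) * y12 + (-d * n 2 3) * y22
  · linear_combination y00
  · linear_combination y01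
  · linear_combination y02
  · linear_combination y10
  · linear_combination y11
  · linear_combination y12
  · linear_combination y20
  · linear_combination y21
  · linear_combination y22

/-- the upper block -/
def gam (n : Fin 3 → Fin 7 → F) : Matrix (Fin 3) (Fin 3) F :=
  !![n 0 0, n 1 0, n 2 0; n 0 1, n 1 1, n 2 1; n 0 2, n 1 2, n 2 2]

theorem gam_inv (n : Fin 3 → Fin 7 → F) (h : (gam n).det ≠ 0) (m i : Fin 3) :
    (gam n)⁻¹ m 0 * n i 0 + (gam n)⁻¹ m 1 * n i 1 + (gam n)⁻¹ m 2 * n i 2 =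
      if m = i then 1 else 0 := by
  have h1 : ((gam n)⁻¹ * gam n) m i = (1 : Matrix (Fin 3) (Fin 3) F) m i := by
    rw [Matrix.nonsing_inv_mul _ (Ne.isUnit h)]
  rw [Matrix.mul_apply, Fin.sum_univ_three, Matrix.one_apply] at h1
  rw [← h1]
  fin_cases i <;> simp [gam]

/-- the standard vectors -/
def e3 : Fin 3 → Fin 7 → F :=
  ![![1, 0, 0, 0, 0, 0, 0], ![0, 1, 0, 0, 0, 0, 0], ![0, 0, 1, 0, 0, 0, 0]]

theorem gam_e3 : gam (e3 : Fin 3 → Fin 7 → F) = 1 := by
  ext i j
  fin_cases i <;> fin_cases j <;> simp [gam, e3]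

theorem adp_e3 (d : F) : adp d e3 (1 : Matrix (Fin 3) (Fin 3) F) = 1 := by
  ext i j
  fin_cases i <;> fin_cases j <;> simp [adp, e3]

end adp

section cont

variable {F : Type*} [NontriviallyNormedField F]

theorem cont_adp (d : F) : Continuous fun q : (Fin 3 → Fin 7 → F) × Matrix (Fin 3) (Fin 3) F =>
    adp d q.1 q.2 := by
  refine continuous_matrix fun i j => ?_
  fin_cases i <;> fin_cases j <;> simp only [adp, Matrix.of_apply, Matrix.cons_val',
    Matrix.cons_val_zero, Matrix.cons_val_one, Matrix.cons_val, Fin.zero_eta, Fin.mk_one,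
    Fin.reduceFinMk] <;> fun_prop

theorem cont_gam : Continuous fun n : Fin 3 → Fin 7 → F => gam n := by
  refine continuous_matrix fun i j => ?_
  fin_cases i <;> fin_cases j <;> simp only [gam, Matrix.of_apply, Matrix.cons_val',
    Matrix.cons_val_zero, Matrix.cons_val_one, Matrix.cons_val, Fin.zero_eta, Fin.mk_one,
    Fin.reduceFinMk] <;> fun_prop

theorem cont_Ad (d : F) :
    ContinuousAt (fun n : Fin 3 → Fin 7 → F => adp d n (gam n)⁻¹) e3 := by
  have h1 : ContinuousAt (fun n : Fin 3 → Fin 7 → F => (gam n)⁻¹) e3 := by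
    have h2 : (fun n : Fin 3 → Fin 7 → F => (gam n)⁻¹) =
        fun n => (gam n).det⁻¹ • (gam n).adjugate := by
      funext n
      rw [Matrix.inv_def, Ring.inverse_eq_inv']
    have h3 : ContinuousAt (fun n : Fin 3 → Fin 7 → F => (gam n).det⁻¹) e3 := by
      refine ContinuousAt.inv₀ cont_gam.matrix_det.continuousAt ?_
      rw [gam_e3, Matrix.det_one]
      exact one_ne_zero
    have h4 : ContinuousAt (fun n : Fin 3 → Fin 7 → F => (gam n).adjugate) e3 :=
      cont_gam.matrix_adjugate.continuousAt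
    rw [h2]
    exact h3.smul h4
  exact ContinuousAt.comp (g := fun q : (Fin 3 → Fin 7 → F) × Matrix (Fin 3) (Fin 3) F =>
    adp d q.1 q.2) (f := fun n => (n, (gam n)⁻¹)) (cont_adp d).continuousAt
    (continuousAt_id.prodMk h1)

end cont

end Pool.Agent.H70.N6
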