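import Pool.Agent.H70.N6.TabL

/-!
# The Gram matrix of `q` in the explicit frame
-/

set_option autoImplicit false

open Matrix

namespace Pool.Agent.H70.N6

section tab

variable {F : Type*} [Field F]

/-- the Gram matrix of `q` in the frame -/
def QQ (A1 A2 A4 A5 A6 A7 w : F) : Matrix (Fin 7) (Fin 7) F :=
  !![0, 0, -1, 0, 0, 0, 0;
     0, 0, 0, 0, 0, 0, -1;
     -1, 0, A1, A2, A4, 0, w;
     0, 0, A2, A5, A6, 0, 1;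
     0, 0, A4, A6, A7, 1, 0;
     0, 0, 0, 0, 1, 0, 0;
     0, -1, w, 1, 0, 0, 0]

theorem mul_QQ (p : Fin 7 → F) (t0 : F) (h2 : (2 : F) ≠ 0) (hp : p 0 ≠ 0) :
    ∃ A1 A2 A4 A5 A6 A7 w : F,
      M0 p * H0 p t0 * (M0 p)ᵀ = QQ A1 A2 A4 A5 A6 A7 w := by
  rw [mul_L0]
  refine ⟨(L0 p t0 * (M0 p)ᵀ) 2 2, (L0 p t0 * (M0 p)ᵀ) 2 3, (L0 p t0 * (M0 p)ᵀ) 2 4,
    (L0 p t0 * (M0 p)ᵀ) 3 3, (L0 p t0 * (M0 p)ᵀ) 3 4, (L0 p t0 * (M0 p)ᵀ) 4 4,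
    (L0 p t0 * (M0 p)ᵀ) 2 6, ?_⟩
  ext i j
  fin_cases i <;> fin_cases j <;>
    simp [Matrix.mul_apply, Fin.sum_univ_seven, M0, QQ, L0, Matrix.transpose_apply, tt, ca1,
      cm1, cm2, cm3] <;> field_simp <;> ring

/-- the change of the frame -/
def CT (a b : F) : Matrix (Fin 7) (Fin 7) F :=
  !![1, 0, a, 0, 0, a * b, 0;
     0, 1, 0, 0, 0, 0, b;
     0, 0, 1, 0, 0, b, 0;
     0, 0, 0, 1, 0, 0, 0;
     0, 0, 0, 0, 1, 0, 0;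
     0, 0, 0, 0, 0, 1, 0;
     0, 0, 0, 0, -a, 0, -1]

end tab

end Pool.Agent.H70.N6
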