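import Pool.Agent.H34.N6.LibB
import Pool.Agent.H70.N6.TabQ

/-!
# The explicit frame in the model
-/

set_option autoImplicit false

open Matrix Polynomial Pool.Agent.H34.N6

namespace Pool.Agent.H70.N6

section bas

variable {F : Type*} [Field F]

theorem entry (A B : Matrix (Fin 7) (Fin 7) F) (i j : Fin 7) :
    (Bᵀ * A * B) i j = (fun k => B k i) ⬝ᵥ (A *ᵥ fun k => B k j) := by
  rw [Matrix.mul_assoc]
  rfl

/-- the values of the functional at the powers of `e` -/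
noncomputable def tau (P : F[X]) (t : F) (Ei : F[X]) (n : ℕ) : F :=
  lam P ((X - C t) ^ n * Ei ^ 4)

theorem tau_add {P : F[X]} (hP : P.Monic) {t : F} {Ei : F[X]} (hE : P ∣ (X - C t) * Ei - 1)
    (n : ℕ) : tau P t Ei (n + 4) = lam P ((X - C t) ^ n) := by
  unfold tau
  apply lam_congr hP
  have h : (X - C t) ^ (n + 4) * Ei ^ 4 - (X - C t) ^ n =
      (X - C t) ^ n * (((X - C t) * Ei - 1) * (((X - C t) * Ei) ^ 3 + ((X - C t) * Ei) ^ 2 +
        (X - C t) * Ei + 1)) := by ring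
  rw [h]
  exact (hE.mul_right _).mul_left _

theorem lam_pow_lt {P : F[X]} (hP : P.Monic) (h7 : P.natDegree = 7) (t : F) {n : ℕ}
    (hn : n < 6) : lam P ((X - C t) ^ n) = 0 := by
  apply lam_eq_zero hP
  rw [natDegree_pow, natDegree_X_sub_C]
  omega

theorem lam_pow_six {P : F[X]} (hP : P.Monic) (h7 : P.natDegree = 7) (t : F) :
    lam P ((X - C t) ^ 6) = 1 := by
  have h6 : ((X - C t) ^ 6 : F[X]).natDegree = 6 := by
    rw [natDegree_pow, natDegree_X_sub_C]
  have hm : ((X - C t) ^ 6 : F[X]).Monic := (monic_X_sub_C t).pow 6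
  rw [lam_of_lt hP, h7]
  · have : ((X - C t) ^ 6 : F[X]).coeff 6 = 1 := by
      have h8 := hm.coeff_natDegree
      rw [h6] at h8
      exact h8
    exact this
  · apply Polynomial.degree_lt_degree
    rw [h6]
    omega

/-- the coefficients of `P` in powers of `X - t` -/
noncomputable def pc (P : F[X]) (t : F) : Fin 7 → F := fun i => (taylor t P).coeff i

theorem pc_zero (P : F[X]) (t : F) : pc P t 0 = eval t P := taylor_coeff_zero t P

theorem P_eq {P : F[X]} (hP : P.Monic) (h7 : P.natDegree = 7) (t : F) :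
    P = C (pc P t 0) + C (pc P t 1) * (X - C t) + C (pc P t 2) * (X - C t) ^ 2 +
      C (pc P t 3) * (X - C t) ^ 3 + C (pc P t 4) * (X - C t) ^ 4 +
      C (pc P t 5) * (X - C t) ^ 5 + C (pc P t 6) * (X - C t) ^ 6 + (X - C t) ^ 7 := by
  have h1 := sum_taylor_eq P t
  have h8 : (taylor t P).natDegree < 8 := by rw [natDegree_taylor, h7]; norm_num
  rw [Polynomial.sum_over_range' _ (by simp) 8 h8] at h1
  simp only [Finset.sum_range_succ, Finset.sum_range_zero] at h1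
  have h9 : (taylor t P).coeff 7 = 1 := by
    have h10 := leadingCoeff_taylor (r := t) (f := P)
    rw [leadingCoeff, natDegree_taylor, h7, hP.leadingCoeff] at h10
    exact h10
  rw [h9] at h1
  conv_lhs => rw [← h1]
  simp only [pc]
  simp only [C_1, Fin.val_zero, Fin.val_one, pow_zero, pow_one, mul_one, one_mul, zero_add]
  rfl

theorem rec_tau {P : F[X]} (hP : P.Monic) (h7 : P.natDegree = 7) (t : F) (Ei : F[X]) (n : ℕ) :
    pc P t 0 * tau P t Ei n + pc P t 1 * tau P t Ei (n + 1) + pc P t 2 * tau P t Ei (n + 2) +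
      pc P t 3 * tau P t Ei (n + 3) + pc P t 4 * tau P t Ei (n + 4) +
      pc P t 5 * tau P t Ei (n + 5) + pc P t 6 * tau P t Ei (n + 6) +
      tau P t Ei (n + 7) = 0 := by
  unfold tau
  simp only [← lam_C_mul, ← lam_add]
  apply lam_dvd hP
  have h : C (pc P t 0) * ((X - C t) ^ n * Ei ^ 4) + C (pc P t 1) * ((X - C t) ^ (n + 1) * Ei ^ 4)
      + C (pc P t 2) * ((X - C t) ^ (n + 2) * Ei ^ 4)
      + C (pc P t 3) * ((X - C t) ^ (n + 3) * Ei ^ 4)
      + C (pc P t 4) * ((X - C t) ^ (n + 4) * Ei ^ 4)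
      + C (pc P t 5) * ((X - C t) ^ (n + 5) * Ei ^ 4)
      + C (pc P t 6) * ((X - C t) ^ (n + 6) * Ei ^ 4) + (X - C t) ^ (n + 7) * Ei ^ 4 =
      (C (pc P t 0) + C (pc P t 1) * (X - C t) + C (pc P t 2) * (X - C t) ^ 2 +
      C (pc P t 3) * (X - C t) ^ 3 + C (pc P t 4) * (X - C t) ^ 4 +
      C (pc P t 5) * (X - C t) ^ 5 + C (pc P t 6) * (X - C t) ^ 6 + (X - C t) ^ 7) *
      ((X - C t) ^ n * Ei ^ 4) := by ring
  rw [h, ← P_eq hP h7 t]
  exact dvd_mul_right _ _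

/-- all values of the functional -/
theorem tau_values {P : F[X]} (hP : P.Monic) (h7 : P.natDegree = 7) {t : F} {Ei : F[X]}
    (hE : P ∣ (X - C t) * Ei - 1) (h0 : pc P t 0 ≠ 0) :
    (∀ n, 4 ≤ n → n ≤ 9 → tau P t Ei n = 0) ∧ tau P t Ei 10 = 1 ∧
    tau P t Ei 11 = tt (pc P t) 11 ∧ tau P t Ei 12 = tt (pc P t) 12 ∧
    tau P t Ei 13 = tt (pc P t) 13 ∧ tau P t Ei 3 = tt (pc P t) 3 ∧
    tau P t Ei 2 = tt (pc P t) 2 ∧ tau P t Ei 1 = tt (pc P t) 1 := by
  have z : ∀ n, 4 ≤ n → n ≤ 9 → tau P t Ei n = 0 := by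
    intro n h1 h2
    obtain ⟨m, rfl⟩ : ∃ m, n = m + 4 := ⟨n - 4, by omega⟩
    rw [tau_add hP hE, lam_pow_lt hP h7 t (by omega)]
  have z4 := z 4 (by norm_num) (by norm_num)
  have z5 := z 5 (by norm_num) (by norm_num)
  have z6 := z 6 (by norm_num) (by norm_num)
  have z7 := z 7 (by norm_num) (by norm_num)
  have z8 := z 8 (by norm_num) (by norm_num)
  have z9 := z 9 (by norm_num) (by norm_num)
  have z10 : tau P t Ei 10 = 1 := by
    rw [show 10 = 6 + 4 from rfl, tau_add hP hE, lam_pow_six hP h7 t]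
  have r4 := rec_tau hP h7 t Ei 4
  have r5 := rec_tau hP h7 t Ei 5
  have r6 := rec_tau hP h7 t Ei 6
  have r3 := rec_tau hP h7 t Ei 3
  have r2 := rec_tau hP h7 t Ei 2
  have r1 := rec_tau hP h7 t Ei 1
  simp only [Nat.reduceAdd, z4, z5, z6, z7, z8, z9, z10] at r4 r5 r6 r3 r2 r1
  have z11 : tau P t Ei 11 = -pc P t 6 := by linear_combination r4
  have z12 : tau P t Ei 12 = pc P t 6 ^ 2 - pc P t 5 := by
    rw [z11] at r5
    linear_combination r5
  have z13 : tau P t Ei 13 = -pc P t 6 * (pc P t 6 ^ 2 - pc P t 5) + pc P t 5 * pc P t 6 -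
      pc P t 4 := by
    rw [z11, z12] at r6
    linear_combination r6
  have z3 : tau P t Ei 3 = -1 / pc P t 0 := by
    rw [eq_div_iff h0]
    linear_combination r3
  have z2 : tau P t Ei 2 = pc P t 1 / pc P t 0 ^ 2 := by
    rw [z3] at r2
    field_simp at r2 ⊢
    linear_combination r2
  have z1 : tau P t Ei 1 = pc P t 2 / pc P t 0 ^ 2 - pc P t 1 ^ 2 / pc P t 0 ^ 3 := by
    rw [z3, z2] at r1
    field_simp at r1 ⊢
    linear_combination r1
  exact ⟨z, z10, z11, z12, z13, z3, z2, z1⟩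

/-- the vector with given coordinates -/
noncomputable def vv (t : F) (Ei : F[X]) (M : Fin 7 → F) : F[X] :=
  ∑ i, C (M i) * ((X - C t) ^ (i : ℕ) * Ei ^ 2)

theorem lam_vv (P : F[X]) (t : F) (Ei : F[X]) (M N : Fin 7 → F) (s : ℕ) :
    lam P ((X - C t) ^ s * vv t Ei M * vv t Ei N) =
      ∑ i, ∑ j, M i * N j * tau P t Ei ((i : ℕ) + (j : ℕ) + s) := by
  have h1 : (X - C t) ^ s * vv t Ei M * vv t Ei N =
      ∑ i, ∑ j, C (M i * N j) * ((X - C t) ^ ((i : ℕ) + (j : ℕ) + s) * Ei ^ 4) := by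
    unfold vv
    rw [mul_assoc, Finset.sum_mul_sum, Finset.mul_sum]
    apply Finset.sum_congr rfl
    intro i _
    rw [Finset.mul_sum]
    apply Finset.sum_congr rfl
    intro j _
    rw [C_mul]
    ring
  rw [h1, lam_sum]
  apply Finset.sum_congr rfl
  intro i _
  rw [lam_sum]
  apply Finset.sum_congr rfl
  intro j _
  rw [lam_C_mul]
  rfl

/-- Hankel matrices -/
noncomputable def hk (P : F[X]) (t : F) (Ei : F[X]) (s : ℕ) : Matrix (Fin 7) (Fin 7) F :=
  fun i j => tau P t Ei ((i : ℕ) + (j : ℕ) + s)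

theorem lam_vv' (P : F[X]) (t : F) (Ei : F[X]) (M : Matrix (Fin 7) (Fin 7) F) (s : ℕ)
    (i j : Fin 7) : lam P ((X - C t) ^ s * vv t Ei (M i) * vv t Ei (M j)) =
      (M * hk P t Ei s * Mᵀ) i j := by
  rw [lam_vv]
  simp only [Matrix.mul_apply, Matrix.transpose_apply, hk, Finset.sum_mul]
  rw [Finset.sum_comm]
  apply Finset.sum_congr rfl
  intro k _
  apply Finset.sum_congr rfl
  intro l _
  ring

theorem hk_one {P : F[X]} (hP : P.Monic) (h7 : P.natDegree = 7) {t : F} {Ei : F[X]}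
    (hE : P ∣ (X - C t) * Ei - 1) (h0 : pc P t 0 ≠ 0) : hk P t Ei 1 = H1 (pc P t) := by
  obtain ⟨z, z10, z11, z12, z13, z3, z2, z1⟩ := tau_values hP h7 hE h0
  have z4 := z 4 (by norm_num) (by norm_num)
  have z5 := z 5 (by norm_num) (by norm_num)
  have z6 := z 6 (by norm_num) (by norm_num)
  have z7 := z 7 (by norm_num) (by norm_num)
  have z8 := z 8 (by norm_num) (by norm_num)
  have z9 := z 9 (by norm_num) (by norm_num)
  ext i j
  fin_cases i <;> fin_cases j <;>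
    simp [hk, H1, z1, z2, z3, z4, z5, z6, z7, z8, z9, z10, z11, z12, z13]

theorem hk_zero {P : F[X]} (hP : P.Monic) (h7 : P.natDegree = 7) {t : F} {Ei : F[X]}
    (hE : P ∣ (X - C t) * Ei - 1) (h0 : pc P t 0 ≠ 0) :
    hk P t Ei 0 = H0 (pc P t) (tau P t Ei 0) := by
  obtain ⟨z, z10, z11, z12, z13, z3, z2, z1⟩ := tau_values hP h7 hE h0
  have z4 := z 4 (by norm_num) (by norm_num)
  have z5 := z 5 (by norm_num) (by norm_num)
  have z6 := z 6 (by norm_num) (by norm_num)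
  have z7 := z 7 (by norm_num) (by norm_num)
  have z8 := z 8 (by norm_num) (by norm_num)
  have z9 := z 9 (by norm_num) (by norm_num)
  ext i j
  fin_cases i <;> fin_cases j <;>
    simp [hk, H0, z1, z2, z3, z4, z5, z6, z7, z8, z9, z10, z11, z12]

/-- the base frame -/
theorem base {P D : F[X]} (h2 : (2 : F) ≠ 0) (hP : P.Monic) (h7 : P.natDegree = 7)
    (hD : IsCoprime P D) (hsq : SqMod P D) {t : F} (ht : eval t P ≠ 0) :
    ∃ (B : Matrix (Fin 7) (Fin 7) F) (A1 A2 A4 A5 A6 A7 w : F),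
      Bᵀ * ft P D t * B = G0 (eval t P) ∧ Bᵀ * gA P D 0 * B = QQ A1 A2 A4 A5 A6 A7 w := by
  obtain ⟨s, hs⟩ := hsq
  obtain ⟨E, -, h1⟩ := exists_inv hP h7 (coprime_of_sq hD hs)
  obtain ⟨Ei, -, hE⟩ := exists_inv hP h7 (coprime_X_sub ht)
  have h0 : pc P t 0 ≠ 0 := by rw [pc_zero]; exact ht
  have hc : ∀ i : Fin 7, ∃ x : Fin 7 → F, P ∣ E * vv t Ei (M0 (pc P t) i) - pol x := by
    intro i
    obtain ⟨g, hg, h3⟩ := exists_rem hP h7 (E * vv t Ei (M0 (pc P t) i))
    exact ⟨cf g, by rw [pol_cf hg]; exact h3⟩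
  choose x hx using hc
  obtain ⟨A1, A2, A4, A5, A6, A7, w, hQ⟩ := mul_QQ (pc P t) (tau P t Ei 0) h2 h0
  have key : ∀ (R : F[X]) (i j : Fin 7), lam P (D * R * pol (x i) * pol (x j)) =
      lam P (R * vv t Ei (M0 (pc P t) i) * vv t Ei (M0 (pc P t) j)) := by
    intro R i j
    apply lam_congr hP
    obtain ⟨u, hu⟩ := hs
    obtain ⟨y, hy⟩ := h1
    obtain ⟨a, ha⟩ := hx i
    obtain ⟨b, hb⟩ := hx j
    set Vi := vv t Ei (M0 (pc P t) i)
    set Vj := vv t Ei (M0 (pc P t) j)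
    have e1 : D = P * u + s ^ 2 := by rw [← hu]; ring
    have e2 : s * E = P * y + 1 := by rw [← hy]; ring
    have e3 : pol (x i) = E * Vi - P * a := by rw [← ha]; ring
    have e4 : pol (x j) = E * Vj - P * b := by rw [← hb]; ring
    have e5 : D * R * pol (x i) * pol (x j) - R * Vi * Vj =
        P * (u * R * pol (x i) * pol (x j)) +
          (R * (s * E * Vi - s * P * a) * (s * E * Vj - s * P * b) - R * Vi * Vj) := by
      rw [e1, e3, e4]
      ring
    rw [e5, e2]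
    refine dvd_add (dvd_mul_right _ _) ⟨R * ((y * Vi - s * a) * ((P * y + 1) * Vj - s * P * b) +
      Vi * (y * Vj - s * b)), ?_⟩
    ring
  refine ⟨fun k i => x i k, A1, A2, A4, A5, A6, A7, w, ?_, ?_⟩
  · ext i j
    rw [entry]
    have h3 : (fun k => x i k) ⬝ᵥ (ft P D t *ᵥ fun k => x j k) =
        lam P ((X - C t) ^ 1 * vv t Ei (M0 (pc P t) i) * vv t Ei (M0 (pc P t) j)) := by
      have h4 := ft_bilin P D t (x i) (x j)
      rw [key (X - C t) i j] at h4
      rw [pow_one]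
      exact h4
    rw [h3, lam_vv', hk_one hP h7 hE h0, mul_G0 (pc P t) h2 h0, pc_zero]
  · ext i j
    rw [entry]
    have h3 : (fun k => x i k) ⬝ᵥ (gA P D 0 *ᵥ fun k => x j k) =
        lam P ((X - C t) ^ 0 * vv t Ei (M0 (pc P t) i) * vv t Ei (M0 (pc P t) j)) := by
      have h4 := gA_bilin P D 0 (x i) (x j)
      rw [key (X ^ 0) i j, pow_zero] at h4
      rw [pow_zero]
      exact h4
    rw [h3, lam_vv', hk_zero hP h7 hE h0, hQ]

end bas

end Pool.Agent.H70.N6
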