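import Pool.Agent.H70.N6.Qua

/-!
# Change of the frame with fixed isotropic plane
-/

set_option autoImplicit false

open Matrix Polynomial Pool.Agent.H34.N6

namespace Pool.Agent.H70.N6

section quu

variable {F : Type*} [Field F]

/-- the entries of the change of the frame -/
theorem U_entries (U : Matrix (Fin 7) (Fin 7) F) (d d1 : F) (hU : Uᵀ * JJ d1 * U = JJ d)
    (h0 : ∀ i, U i 0 = if i = 0 then 1 else 0) (h1 : ∀ i, U i 1 = if i = 1 then 1 else 0)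
    (h2 : ∀ i, U i 2 = if i = 2 then 1 else 0) :
    U 4 3 = 0 ∧ U 5 3 = 0 ∧ U 6 3 = 0 ∧ U 4 6 = 0 ∧ U 5 6 = 0 ∧ U 6 6 = 1 ∧
      d1 * U 3 3 ^ 2 = d ∧ 2 * U 2 6 + d1 * U 3 6 ^ 2 = 0 ∧ U 2 3 + d1 * U 3 3 * U 3 6 = 0 := by
  have hij : ∀ i j, (Uᵀ * JJ d1 * U) i j = JJ d i j := fun i j => by rw [hU]
  have e : ∀ i j, (Uᵀ * JJ d1 * U) i j = U 0 i * U 4 j + U 4 i * U 0 j + U 1 i * U 5 j +
      U 5 i * U 1 j + U 2 i * U 6 j + U 6 i * U 2 j + d1 * (U 3 i * U 3 j) := by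
    intro i j
    simp only [Matrix.mul_apply, Fin.sum_univ_seven, Matrix.transpose_apply, JJ]
    simp
    ring
  have a1 : U 4 3 = 0 := by
    have := (e 0 3).symm.trans (hij 0 3)
    simpa [h0, JJ] using this
  have a2 : U 5 3 = 0 := by
    have := (e 1 3).symm.trans (hij 1 3)
    simpa [h1, JJ] using this
  have a3 : U 6 3 = 0 := by
    have := (e 2 3).symm.trans (hij 2 3)
    simpa [h2, JJ] using this
  have b1 : U 4 6 = 0 := by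
    have := (e 0 6).symm.trans (hij 0 6)
    simpa [h0, JJ] using this
  have b2 : U 5 6 = 0 := by
    have := (e 1 6).symm.trans (hij 1 6)
    simpa [h1, JJ] using this
  have b3 : U 6 6 = 1 := by
    have := (e 2 6).symm.trans (hij 2 6)
    simpa [h2, JJ] using this
  refine ⟨a1, a2, a3, b1, b2, b3, ?_, ?_, ?_⟩
  · have h := (e 3 3).symm.trans (hij 3 3)
    rw [a1, a2, a3] at h
    have hj : JJ d 3 3 = d := by simp [JJ]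
    rw [hj] at h
    linear_combination h
  · have h := (e 6 6).symm.trans (hij 6 6)
    rw [b1, b2, b3] at h
    have hj : JJ d 6 6 = 0 := by simp [JJ]
    rw [hj] at h
    linear_combination h
  · have h := (e 3 6).symm.trans (hij 3 6)
    rw [a1, a2, a3, b1, b2, b3] at h
    have hj : JJ d 3 6 = 0 := by simp [JJ]
    rw [hj] at h
    linear_combination h

/-- the quartic in the new frame is the old one after an affine substitution -/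
theorem quart_U (Q U : Matrix (Fin 7) (Fin 7) F) (d d1 : F) (h2' : (2 : F) ≠ 0) (hs : Qᵀ = Q)
    (hU : Uᵀ * JJ d1 * U = JJ d)
    (h0 : ∀ i, U i 0 = if i = 0 then 1 else 0) (h1 : ∀ i, U i 1 = if i = 1 then 1 else 0)
    (h2 : ∀ i, U i 2 = if i = 2 then 1 else 0) :
    quart (Uᵀ * Q * U) d = (quart Q d1).comp (C (U 3 3) * X + C (U 3 6)) := by
  obtain ⟨a1, a2, a3, b1, b2, b3, c1, c2, c3⟩ := U_entries U d d1 hU h0 h1 h2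
  have hs' : ∀ i j, Q i j = Q j i := fun i j => by
    conv_lhs => rw [← hs]
    rfl
  obtain ⟨k, hk⟩ : ∃ k, d1 / 2 = k := ⟨_, rfl⟩
  have hd1 : d1 = 2 * k := by rw [← hk]; field_simp
  have e26 : U 2 6 = -(k * U 3 6 ^ 2) := by
    rw [hd1] at c2
    have : (2 : F) * (U 2 6 + k * U 3 6 ^ 2) = 0 := by linear_combination c2
    rcases mul_eq_zero.1 this with h | h
    · exact absurd h h2'
    · linear_combination h
  have e23 : U 2 3 = -(2 * k * U 3 3 * U 3 6) := by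
    rw [hd1] at c3
    linear_combination c3
  have hdd : d / 2 = k * U 3 3 ^ 2 := by
    rw [← c1, hd1]
    field_simp
  have hst : (Uᵀ * Q * U)ᵀ = Uᵀ * Q * U := by
    rw [Matrix.transpose_mul, Matrix.transpose_mul, Matrix.transpose_transpose, hs,
      Matrix.mul_assoc]
  have g : ∀ i j, (Uᵀ * Q * U) i j = ∑ x, (∑ y, U y i * Q y x) * U x j := by
    intro i j
    simp only [Matrix.mul_apply, Matrix.transpose_apply]
  have q00 : (Uᵀ * Q * U) 0 0 = Q 0 0 := by rw [g]; simp [h0]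
  have q01 : (Uᵀ * Q * U) 0 1 = Q 0 1 := by rw [g]; simp [h0, h1]
  have q11 : (Uᵀ * Q * U) 1 1 = Q 1 1 := by rw [g]; simp [h1]
  have q02 : (Uᵀ * Q * U) 0 2 = Q 0 2 := by rw [g]; simp [h0, h2]
  have q12 : (Uᵀ * Q * U) 1 2 = Q 1 2 := by rw [g]; simp [h1, h2]
  have q22 : (Uᵀ * Q * U) 2 2 = Q 2 2 := by rw [g]; simp [h2]
  have q03 : (Uᵀ * Q * U) 0 3 = Q 0 0 * U 0 3 + Q 0 1 * U 1 3 + Q 0 2 * U 2 3 +
      Q 0 3 * U 3 3 := by rw [g]; simp [h0, Fin.sum_univ_seven, a1, a2, a3]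
  have q13 : (Uᵀ * Q * U) 1 3 = Q 0 1 * U 0 3 + Q 1 1 * U 1 3 + Q 1 2 * U 2 3 +
      Q 1 3 * U 3 3 := by rw [g]; simp [h1, Fin.sum_univ_seven, a1, a2, a3, hs' 1 0]
  have q23 : (Uᵀ * Q * U) 2 3 = Q 0 2 * U 0 3 + Q 1 2 * U 1 3 + Q 2 2 * U 2 3 +
      Q 2 3 * U 3 3 := by
    rw [g]; simp [h2, Fin.sum_univ_seven, a1, a2, a3, hs' 2 0, hs' 2 1]
  have q06 : (Uᵀ * Q * U) 0 6 = Q 0 0 * U 0 6 + Q 0 1 * U 1 6 + Q 0 2 * U 2 6 +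
      Q 0 3 * U 3 6 + Q 0 6 := by rw [g]; simp [h0, Fin.sum_univ_seven, b1, b2, b3]
  have q16 : (Uᵀ * Q * U) 1 6 = Q 0 1 * U 0 6 + Q 1 1 * U 1 6 + Q 1 2 * U 2 6 +
      Q 1 3 * U 3 6 + Q 1 6 := by rw [g]; simp [h1, Fin.sum_univ_seven, b1, b2, b3, hs' 1 0]
  have q26 : (Uᵀ * Q * U) 2 6 = Q 0 2 * U 0 6 + Q 1 2 * U 1 6 + Q 2 2 * U 2 6 +
      Q 2 3 * U 3 6 + Q 2 6 := by
    rw [g]; simp [h2, Fin.sum_univ_seven, b1, b2, b3, hs' 2 0, hs' 2 1]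
  have q33 : (Uᵀ * Q * U) 3 3 = Q 0 0 * U 0 3 ^ 2 + Q 1 1 * U 1 3 ^ 2 + Q 2 2 * U 2 3 ^ 2 +
      Q 3 3 * U 3 3 ^ 2 + 2 * (Q 0 1 * U 0 3 * U 1 3 + Q 0 2 * U 0 3 * U 2 3 +
      Q 0 3 * U 0 3 * U 3 3 + Q 1 2 * U 1 3 * U 2 3 + Q 1 3 * U 1 3 * U 3 3 +
      Q 2 3 * U 2 3 * U 3 3) := by
    rw [g]
    simp only [Fin.sum_univ_seven, a1, a2, a3, hs' 1 0, hs' 2 0, hs' 2 1, hs' 3 0, hs' 3 1,
      hs' 3 2]
    ring
  have q36 : (Uᵀ * Q * U) 3 6 = U 0 3 * (Q 0 0 * U 0 6 + Q 0 1 * U 1 6 + Q 0 2 * U 2 6 +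
      Q 0 3 * U 3 6 + Q 0 6) + U 1 3 * (Q 0 1 * U 0 6 + Q 1 1 * U 1 6 + Q 1 2 * U 2 6 +
      Q 1 3 * U 3 6 + Q 1 6) + U 2 3 * (Q 0 2 * U 0 6 + Q 1 2 * U 1 6 + Q 2 2 * U 2 6 +
      Q 2 3 * U 3 6 + Q 2 6) + U 3 3 * (Q 0 3 * U 0 6 + Q 1 3 * U 1 6 + Q 2 3 * U 2 6 +
      Q 3 3 * U 3 6 + Q 3 6) := by
    rw [g]
    simp only [Fin.sum_univ_seven, a1, a2, a3, b1, b2, b3, hs' 1 0, hs' 2 0, hs' 2 1, hs' 3 0,
      hs' 3 1, hs' 3 2]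
    ring
  have q66 : (Uᵀ * Q * U) 6 6 = Q 0 0 * U 0 6 ^ 2 + Q 1 1 * U 1 6 ^ 2 + Q 2 2 * U 2 6 ^ 2 +
      Q 3 3 * U 3 6 ^ 2 + Q 6 6 + 2 * (Q 0 1 * U 0 6 * U 1 6 + Q 0 2 * U 0 6 * U 2 6 +
      Q 0 3 * U 0 6 * U 3 6 + Q 0 6 * U 0 6 + Q 1 2 * U 1 6 * U 2 6 + Q 1 3 * U 1 6 * U 3 6 +
      Q 1 6 * U 1 6 + Q 2 3 * U 2 6 * U 3 6 + Q 2 6 * U 2 6 + Q 3 6 * U 3 6) := by
    rw [g]
    simp only [Fin.sum_univ_seven, b1, b2, b3, hs' 1 0, hs' 2 0, hs' 2 1, hs' 3 0,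
      hs' 3 1, hs' 3 2, hs' 6 0, hs' 6 1, hs' 6 2, hs' 6 3]
    ring
  rw [quart_eq _ d _ hdd hst, quart_eq Q d1 k hk hs, q00, q01, q11, q02, q12, q22, q03, q13,
    q23, q06, q16, q26, q33, q36, q66, e26, e23]
  simp only [add_comp, sub_comp, mul_comp, C_comp, X_comp, pow_comp]
  simp only [C_add, C_sub, C_mul, C_pow, C_neg, C_ofNat]
  ring

end quu

end Pool.Agent.H70.N6
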