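import Pool.Agent.H70.N6.Sml
import Pool.Agent.H70.N6.QuU

/-!
# Good frames form an open set
-/

set_option autoImplicit false

open Matrix Polynomial Pool.Agent.H34.N6 Filter
open scoped Topology

namespace Pool.Agent.H70.N6

section cq

variable {F : Type*} [Field F]

/-- constant coefficient -/
def cq0 (h : F) (Q : Matrix (Fin 7) (Fin 7) F) : F :=
  (Q 0 0 * Q 1 1 - Q 0 1 ^ 2) * Q 6 6 - Q 0 0 * Q 1 6 ^ 2 + 2 * Q 0 1 * Q 0 6 * Q 1 6 -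
    Q 1 1 * Q 0 6 ^ 2 + 0 * h

/-- linear coefficient -/
def cq1 (h : F) (Q : Matrix (Fin 7) (Fin 7) F) : F :=
  (Q 0 0 * Q 1 1 - Q 0 1 ^ 2) * (2 * Q 3 6) - 2 * Q 0 0 * Q 1 6 * Q 1 3 +
    2 * Q 0 1 * (Q 0 6 * Q 1 3 + Q 0 3 * Q 1 6) - 2 * Q 1 1 * Q 0 6 * Q 0 3 + 0 * h

/-- quadratic coefficient -/
def cq2 (h : F) (Q : Matrix (Fin 7) (Fin 7) F) : F :=
  (Q 0 0 * Q 1 1 - Q 0 1 ^ 2) * (Q 3 3 - 2 * h * Q 2 6) -
    Q 0 0 * (Q 1 3 ^ 2 - 2 * h * Q 1 6 * Q 1 2) +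
    2 * Q 0 1 * (Q 0 3 * Q 1 3 - h * (Q 0 6 * Q 1 2 + Q 0 2 * Q 1 6)) -
    Q 1 1 * (Q 0 3 ^ 2 - 2 * h * Q 0 6 * Q 0 2)

/-- cubic coefficient -/
def cq3 (h : F) (Q : Matrix (Fin 7) (Fin 7) F) : F :=
  -((Q 0 0 * Q 1 1 - Q 0 1 ^ 2) * (2 * h * Q 2 3)) + 2 * Q 0 0 * h * Q 1 3 * Q 1 2 -
    2 * Q 0 1 * h * (Q 0 3 * Q 1 2 + Q 0 2 * Q 1 3) + 2 * Q 1 1 * h * Q 0 3 * Q 0 2

/-- quartic coefficient -/
def cq4 (h : F) (Q : Matrix (Fin 7) (Fin 7) F) : F :=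
  (Q 0 0 * Q 1 1 - Q 0 1 ^ 2) * (h ^ 2 * Q 2 2) - Q 0 0 * h ^ 2 * Q 1 2 ^ 2 +
    2 * Q 0 1 * h ^ 2 * Q 0 2 * Q 1 2 - Q 1 1 * h ^ 2 * Q 0 2 ^ 2

theorem quart_cq (Q : Matrix (Fin 7) (Fin 7) F) (d h : F) (hd : d / 2 = h) (hs : Qᵀ = Q) :
    quart Q d = C (cq4 h Q) * X ^ 4 + C (cq3 h Q) * X ^ 3 + C (cq2 h Q) * X ^ 2 +
      C (cq1 h Q) * X + C (cq0 h Q) := by
  rw [quart_eq Q d h hd hs]
  simp only [cq0, cq1, cq2, cq3, cq4, C_add, C_sub, C_mul, C_pow, C_neg, C_0, C_ofNat]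
  ring

/-- an isotropic vector in the plane of `e₀` and `e₂` -/
theorem ti_of_sq (Q : Matrix (Fin 7) (Fin 7) F) (hs : Qᵀ = Q)
    (h : IsSquare (Q 0 2 ^ 2 - Q 0 0 * Q 2 2)) : TI (blk Q) 1 := by
  have hs' : ∀ i j, Q i j = Q j i := fun i j => by
    conv_lhs => rw [← hs]
    rfl
  have e : ∀ a b : F, (![a, 0, b] : Fin 3 → F) ⬝ᵥ (blk Q *ᵥ ![a, 0, b]) =
      Q 0 0 * a ^ 2 + 2 * Q 0 2 * a * b + Q 2 2 * b ^ 2 := by
    intro a b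
    simp only [blk, dotProduct, mulVec, Fin.sum_univ_three, Matrix.cons_val_zero,
      Matrix.cons_val_one, Matrix.cons_val]
    have e1 : Q ⟨((0 : Fin 3) : ℕ), by decide⟩ ⟨((0 : Fin 3) : ℕ), by decide⟩ = Q 0 0 := rfl
    have e2 : Q ⟨((0 : Fin 3) : ℕ), by decide⟩ ⟨((2 : Fin 3) : ℕ), by decide⟩ = Q 0 2 := rfl
    have e3 : Q ⟨((2 : Fin 3) : ℕ), by decide⟩ ⟨((0 : Fin 3) : ℕ), by decide⟩ = Q 2 0 := rfl
    have e4 : Q ⟨((2 : Fin 3) : ℕ), by decide⟩ ⟨((2 : Fin 3) : ℕ), by decide⟩ = Q 2 2 := rfl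
    rw [e1, e2, e3, e4, hs' 2 0]
    ring
  obtain ⟨s, hsq⟩ := h
  by_cases h22 : Q 2 2 = 0
  · refine ⟨fun _ => ![0, 0, 1], ?_, ?_⟩
    · rw [linearIndependent_unique_iff]
      intro h
      exact one_ne_zero (congrFun h 2)
    · intro i j
      rw [e, h22]
      ring
  · refine ⟨fun _ => ![1, 0, (-Q 0 2 + s) / Q 2 2], ?_, ?_⟩
    · rw [linearIndependent_unique_iff]
      intro h
      exact one_ne_zero (congrFun h 0)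
    · intro i j
      rw [e]
      field_simp
      linear_combination -hsq

end cq

section norm

variable {F : Type*} [NontriviallyNormedField F] [IsUltrametricDist F]

theorem good_crit (Q : Matrix (Fin 7) (Fin 7) F) (d h : F) (r : ℝ) (hd : d / 2 = h)
    (hs : Qᵀ = Q) (hr : 0 < r) (h4 : cq4 h Q ≠ 0) (h0 : ‖cq0 h Q‖ = r ^ 4 * ‖cq4 h Q‖)
    (h1 : ‖cq1 h Q‖ < r ^ 3 * ‖cq4 h Q‖) (h2 : ‖cq2 h Q‖ < r ^ 2 * ‖cq4 h Q‖)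
    (h3 : ‖cq3 h Q‖ < r * ‖cq4 h Q‖) (hsq : ∀ x : F, ‖x‖ ≠ r ^ 2) :
    Irreducible (quart Q d) ∧ (quart Q d).natDegree = 4 := by
  have hn : 0 < ‖cq4 h Q‖ := norm_pos_iff.2 h4
  have hq := quart_cq Q d h hd hs
  have hq2 : quart Q d = C (cq4 h Q) * (X ^ 4 + C (cq3 h Q / cq4 h Q) * X ^ 3 +
      C (cq2 h Q / cq4 h Q) * X ^ 2 + C (cq1 h Q / cq4 h Q) * X + C (cq0 h Q / cq4 h Q)) := by
    have f : ∀ y : F, C (cq4 h Q) * C (y / cq4 h Q) = C y := fun y => by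
      rw [← C_mul, mul_div_cancel₀ _ h4]
    rw [hq]
    linear_combination (-X ^ 3) * f (cq3 h Q) - (X ^ 2) * f (cq2 h Q) - X * f (cq1 h Q) -
      f (cq0 h Q)
  have hm : ∀ (y : F) (M : ℝ), ‖y‖ < M * ‖cq4 h Q‖ → ‖y / cq4 h Q‖ ≤ M := fun y M hy => by
    rw [norm_div, div_le_iff₀ hn]
    exact hy.le
  have hirr := cri (cq0 h Q / cq4 h Q) (cq1 h Q / cq4 h Q) (cq2 h Q / cq4 h Q)
    (cq3 h Q / cq4 h Q) r hr (by rw [norm_div, h0, mul_div_assoc, div_self hn.ne', mul_one])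
    (hm _ _ h1) (hm _ _ h2) (hm _ _ h3) hsq
  constructor
  · rw [hq2, irreducible_isUnit_mul (isUnit_C.2 h4.isUnit)]
    exact hirr
  · rw [hq2, natDegree_C_mul h4]
    compute_degree!

theorem ev_norm_eq' {T : Type*} [TopologicalSpace T] (g : T → F) (hg : Continuous g) (q : T)
    (hy : g q ≠ 0) : ∀ᶠ x in 𝓝 q, ‖g x‖ = ‖g q‖ := by
  have ht : Tendsto (fun x => ‖g x - g q‖) (𝓝 q) (𝓝 0) := by
    have hc : Continuous fun x => ‖g x - g q‖ := by fun_prop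
    have := hc.tendsto q
    rw [sub_self, norm_zero] at this
    exact this
  filter_upwards [ht.eventually_lt_const (norm_pos_iff.2 hy)] with x hx
  exact norm_eq_of_close hx

theorem ev_lt' {T : Type*} [TopologicalSpace T] (g : T → F) (hg : Continuous g) (q : T) (M : ℝ)
    (hy : ‖g q‖ < M) : ∀ᶠ x in 𝓝 q, ‖g x‖ < M := by
  have hc : Continuous fun x => ‖g x‖ := by fun_prop
  exact (hc.tendsto q).eventually_lt_const hy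

/-- all conditions are open -/
theorem open_good (Q1 : Matrix (Fin 7) (Fin 7) F) (d h : F) (r : ℝ) (hd : d / 2 = h)
    (hr : 0 < r) (h4 : cq4 h Q1 ≠ 0) (h0 : ‖cq0 h Q1‖ = r ^ 4 * ‖cq4 h Q1‖)
    (h1 : ‖cq1 h Q1‖ < r ^ 3 * ‖cq4 h Q1‖) (h2 : ‖cq2 h Q1‖ < r ^ 2 * ‖cq4 h Q1‖)
    (h3 : ‖cq3 h Q1‖ < r * ‖cq4 h Q1‖) (hsq : ∀ x : F, ‖x‖ ≠ r ^ 2)
    (hb : (blk Q1).det ≠ 0) (h5 : Q1 0 2 ^ 2 - Q1 0 0 * Q1 2 2 = 1) (e : ℝ) (he : 0 < e)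
    (hopn : ∀ c : F, ‖c - 1‖ < e → IsSquare c) :
    ∀ᶠ Q in 𝓝 Q1, Qᵀ = Q → Irreducible (quart Q d) ∧ (quart Q d).natDegree = 4 ∧
      (blk Q).det ≠ 0 ∧ TI (blk Q) 1 := by
  have c0 : Continuous fun Q : Matrix (Fin 7) (Fin 7) F => cq0 h Q := by unfold cq0; fun_prop
  have c1 : Continuous fun Q : Matrix (Fin 7) (Fin 7) F => cq1 h Q := by unfold cq1; fun_prop
  have c2 : Continuous fun Q : Matrix (Fin 7) (Fin 7) F => cq2 h Q := by unfold cq2; fun_prop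
  have c3 : Continuous fun Q : Matrix (Fin 7) (Fin 7) F => cq3 h Q := by unfold cq3; fun_prop
  have c4 : Continuous fun Q : Matrix (Fin 7) (Fin 7) F => cq4 h Q := by unfold cq4; fun_prop
  have c5 : Continuous fun Q : Matrix (Fin 7) (Fin 7) F => (blk Q).det := by
    have : Continuous fun Q : Matrix (Fin 7) (Fin 7) F => blk Q := by
      unfold blk; fun_prop
    exact this.matrix_det
  have c6 : Continuous fun Q : Matrix (Fin 7) (Fin 7) F => Q 0 2 ^ 2 - Q 0 0 * Q 2 2 - 1 := by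
    fun_prop
  have hn : 0 < ‖cq4 h Q1‖ := norm_pos_iff.2 h4
  have h00 : cq0 h Q1 ≠ 0 := norm_ne_zero_iff.1 (by rw [h0]; positivity)
  filter_upwards [ev_norm_eq' _ c0 Q1 h00, ev_norm_eq' _ c4 Q1 h4, ev_lt' _ c1 Q1 _ h1,
    ev_lt' _ c2 Q1 _ h2, ev_lt' _ c3 Q1 _ h3, ev_norm_eq' _ c5 Q1 hb,
    ev_lt' _ c6 Q1 e (by rw [h5, sub_self, norm_zero]; exact he)] with Q t0 t4 t1 t2 t3 t5 t6 hs
  have g := good_crit Q d h r hd hs hr (norm_ne_zero_iff.1 (by rw [t4]; exact hn.ne'))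
    (by rw [t0, t4, h0]) (by rw [t4]; exact t1) (by rw [t4]; exact t2) (by rw [t4]; exact t3) hsq
  refine ⟨g.1, g.2, norm_ne_zero_iff.1 (by rw [t5]; exact norm_ne_zero_iff.2 hb),
    ti_of_sq Q hs (hopn _ t6)⟩

/-- the explicit frame satisfies all conditions -/
theorem small2 (c : F)
    (hc0 : c ≠ 0) (hc : ∀ x : F, ‖x‖ ^ 2 ≠ ‖c‖) (h2 : (2 : F) ≠ 0) (d h : F) (hd : d ≠ 0)
    (hh : d / 2 = h)
    (A1 A2 A4 A5 A6 A7 w : F) : ∃ (a b : F) (r : ℝ), 0 < r ∧ (∀ x : F, ‖x‖ ≠ r ^ 2) ∧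
      ∀ Q : Matrix (Fin 7) (Fin 7) F,
      Q = CT a b * QQ A1 A2 A4 A5 A6 A7 w * (CT a b)ᵀ →
      cq4 h Q ≠ 0 ∧ ‖cq0 h Q‖ = r ^ 4 * ‖cq4 h Q‖ ∧ ‖cq1 h Q‖ < r ^ 3 * ‖cq4 h Q‖ ∧
      ‖cq2 h Q‖ < r ^ 2 * ‖cq4 h Q‖ ∧ ‖cq3 h Q‖ < r * ‖cq4 h Q‖ ∧ (blk Q).det ≠ 0 ∧
      Q 0 2 ^ 2 - Q 0 0 * Q 2 2 = 1 := by
  have hh0 : h ≠ 0 := by rw [← hh]; exact div_ne_zero hd h2
  have hv : (2 : F) * c * h ^ 2 ≠ 0 := mul_ne_zero (mul_ne_zero h2 hc0) (pow_ne_zero 2 hh0)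
  set v : F := 2 * c * h ^ 2 with hvd
  have hvn : 0 < ‖v‖ := norm_pos_iff.2 hv
  set R : ℝ := ‖(2 : F)‖ / ‖v‖ with hR
  have hR0 : 0 < R := div_pos (norm_pos_iff.2 h2) hvn
  set r : ℝ := Real.sqrt (Real.sqrt R) with hr
  have hr0 : 0 < r := Real.sqrt_pos.2 (Real.sqrt_pos.2 hR0)
  have hr2 : r ^ 2 = Real.sqrt R := Real.sq_sqrt (Real.sqrt_nonneg _)
  have hr4 : r ^ 4 = R := by
    calc r ^ 4 = (r ^ 2) ^ 2 := by ring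
      _ = R := by rw [hr2, Real.sq_sqrt hR0.le]
  have hs : ∀ x : F, ‖x‖ ≠ r ^ 2 := by
    intro x hx
    have h5 : ‖x‖ ^ 2 = R := by rw [hx, ← hr4]; ring
    have h6 : ‖c‖ * ‖h‖ ^ 2 * ‖x‖ ^ 2 = 1 := by
      rw [h5, hR, hvd, norm_mul, norm_mul, norm_pow]
      have h7 : ‖(2 : F)‖ ≠ 0 := norm_ne_zero_iff.2 h2
      have h8 : ‖c‖ ≠ 0 := norm_ne_zero_iff.2 hc0
      have h9 : ‖h‖ ≠ 0 := norm_ne_zero_iff.2 hh0
      field_simp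
    refine hc (h * x)⁻¹ ?_
    rw [norm_inv, norm_mul]
    rw [inv_pow]
    exact inv_eq_of_mul_eq_one_left (by linear_combination h6)
  have e0 := ev_norm_eq (fun x => k0 c h A1 A4 A7 w x) (by unfold k0; fun_prop) 2
    (by simp [k0]) h2
  have e4 := ev_norm_eq (fun x => k4 c h A1 w x) (by unfold k4; fun_prop) v
    (by simp only [k4, hvd]; ring) hv
  have e1 := ev_norm_lt (fun x => k1 c h A1 A2 A4 A6 w x) (by unfold k1; fun_prop)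
    (by simp [k1]) (r ^ 3 * ‖v‖) (by positivity)
  have e2 := ev_norm_lt (fun x => k2 c h A1 A2 A4 A5 w x) (by unfold k2; fun_prop)
    (by simp [k2]) (r ^ 2 * ‖v‖) (by positivity)
  have e3 := ev_norm_lt (fun x => k3 c h A1 A2 w x) (by unfold k3; fun_prop)
    (by simp [k3]) (r * ‖v‖) (by positivity)
  have e5 : ∀ᶠ x in 𝓝[≠] (0 : F), x ≠ 0 := self_mem_nhdsWithin
  obtain ⟨x, ⟨⟨⟨⟨hx0, hx4⟩, hx1⟩, hx2⟩, hx3⟩, hx⟩ :=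
    (((((e0.and e4).and e1).and e2).and e3).filter_mono nhdsWithin_le_nhds |>.and e5).exists
  refine ⟨x, c * x, r, hr0, hs, fun Q hQ => ?_⟩
  obtain ⟨hst, q00, q01, q11, q02, q12, q22, q03, q13, q23, q33, q06, q16, q26, q36, q66⟩ :=
    CT_QQ x (c * x) A1 A2 A4 A5 A6 A7 w Q hQ
  have hs' : ∀ i j, Q i j = Q j i := fun i j => by
    conv_lhs => rw [← hst]
    rfl
  have f0 : cq0 h Q = x * k0 c h A1 A4 A7 w x := by
    rw [cq0, q00, q01, q11, q06, q16, q66, k0]; ring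
  have f1 : cq1 h Q = x * k1 c h A1 A2 A4 A6 w x := by
    rw [cq1, q00, q01, q11, q06, q16, q03, q13, q36, k1]; ring
  have f2 : cq2 h Q = x * k2 c h A1 A2 A4 A5 w x := by
    rw [cq2, q00, q01, q11, q06, q16, q03, q13, q33, q26, q02, q12, k2]; ring
  have f3 : cq3 h Q = x * k3 c h A1 A2 w x := by
    rw [cq3, q00, q01, q11, q03, q13, q23, q02, q12, k3]; ring
  have f4 : cq4 h Q = x * k4 c h A1 w x := by
    rw [cq4, q00, q01, q11, q22, q02, q12, k4]; ring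
  have hxn : 0 < ‖x‖ := norm_pos_iff.2 hx
  have n4 : ‖cq4 h Q‖ = ‖x‖ * ‖v‖ := by rw [f4, norm_mul, hx4]
  refine ⟨norm_ne_zero_iff.1 (by rw [n4]; positivity), ?_, ?_, ?_, ?_, ?_, ?_⟩
  · rw [f0, norm_mul, hx0, n4, hr4, hR]
    field_simp
  · rw [f1, norm_mul, n4]
    calc ‖x‖ * ‖k1 c h A1 A2 A4 A6 w x‖ < ‖x‖ * (r ^ 3 * ‖v‖) := by gcongr
      _ = r ^ 3 * (‖x‖ * ‖v‖) := by ring
  · rw [f2, norm_mul, n4]
    calc ‖x‖ * ‖k2 c h A1 A2 A4 A5 w x‖ < ‖x‖ * (r ^ 2 * ‖v‖) := by gcongr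
      _ = r ^ 2 * (‖x‖ * ‖v‖) := by ring
  · rw [f3, norm_mul, n4]
    calc ‖x‖ * ‖k3 c h A1 A2 w x‖ < ‖x‖ * (r * ‖v‖) := by gcongr
      _ = r * (‖x‖ * ‖v‖) := by ring
  · have hdet : (blk Q).det = 2 * (c * x) := by
      rw [Matrix.det_fin_three]
      have b : ∀ i j : Fin 3, blk Q i j = Q ⟨i, by omega⟩ ⟨j, by omega⟩ := fun i j => rfl
      have b00 : blk Q 0 0 = Q 0 0 := rfl
      have b01 : blk Q 0 1 = Q 0 1 := rfl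
      have b02 : blk Q 0 2 = Q 0 2 := rfl
      have b10 : blk Q 1 0 = Q 1 0 := rfl
      have b11 : blk Q 1 1 = Q 1 1 := rfl
      have b12 : blk Q 1 2 = Q 1 2 := rfl
      have b20 : blk Q 2 0 = Q 2 0 := rfl
      have b21 : blk Q 2 1 = Q 2 1 := rfl
      have b22 : blk Q 2 2 = Q 2 2 := rfl
      rw [b00, b01, b02, b10, b11, b12, b20, b21, b22, hs' 1 0, hs' 2 0, hs' 2 1, q00, q01, q11,
        q02, q12, q22]
      ring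
    rw [hdet]
    exact mul_ne_zero h2 (mul_ne_zero hc0 hx)
  · rw [q00, q02, q22]
    ring

end norm

end Pool.Agent.H70.N6
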