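import Pool.Agent.H34.N6.Main2
import Pool.Agent.H70.N6.Opn
import Pool.Agent.H70.N6.Adp
import Pool.Agent.H70.N6.Bas
import Pool.Agent.H55.QCL.VAL
import Pool.Agent.H55.QCL.HEN

/-!
# Local planes with irreducible quartic
-/

set_option autoImplicit false

open Matrix Polynomial Pool.Agent.H34.N6 Filter
open scoped Topology

namespace Pool.Agent.H70.N6

section alg

variable {F : Type*} [Field F]

theorem JJ_mul (d : F) (hd : d ≠ 0) : JJ d * JJ d⁻¹ = 1 := by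
  ext i j
  fin_cases i <;> fin_cases j <;>
    simp [Matrix.mul_apply, Fin.sum_univ_seven, JJ, hd]

theorem JJ_det (d : F) (hd : d ≠ 0) : (JJ d).det ≠ 0 := by
  intro h
  have h1 := congrArg Matrix.det (JJ_mul d hd)
  rw [Matrix.det_mul, h, zero_mul, Matrix.det_one] at h1
  exact zero_ne_one h1

theorem irr_comp (p : F[X]) (a b : F) (ha : a ≠ 0) (hp : Irreducible p) :
    Irreducible (p.comp (C a * X + C b)) := by
  let := invertibleOfNonzero ha
  have h := (MulEquiv.irreducible_iff (algEquivCMulXAddC a b) (x := p)).2 hp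
  rw [algEquivCMulXAddC_apply] at h
  exact h

theorem deg_comp (p : F[X]) (a b : F) (ha : a ≠ 0) :
    (p.comp (C a * X + C b)).natDegree = p.natDegree := by
  rw [natDegree_comp, natDegree_linear ha, mul_one]

theorem det_ne_of (d : F) (hd : d ≠ 0) (A B : Matrix (Fin 7) (Fin 7) F)
    (h : Bᵀ * A * B = JJ d) : B.det ≠ 0 := by
  intro h0
  have h1 := congrArg Matrix.det h
  rw [Matrix.det_mul, h0, mul_zero] at h1
  exact JJ_det d hd h1.symm

theorem e3_eq (i : Fin 3) (k : Fin 7) :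
    (e3 i k : F) = (1 : Matrix (Fin 7) (Fin 7) F) k ⟨i, by omega⟩ := by
  fin_cases i <;> fin_cases k <;> simp [e3]

/-- comparison of an arbitrary frame with the adapted frame -/
theorem compare (h2 : (2 : F) ≠ 0) (Q1 N : Matrix (Fin 7) (Fin 7) F) (d d1 : F) (hd : d ≠ 0)
    (hd1 : d1 ≠ 0) (hQ1 : Q1ᵀ = Q1) (hN : Nᵀ * JJ d1 * N = JJ d)
    (n : Fin 3 → Fin 7 → F) (hn : ∀ (i : Fin 3) (j : Fin 7), n i j = N j ⟨i, by omega⟩)
    (hg : (gam n).det ≠ 0) (Q : Matrix (Fin 7) (Fin 7) F)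
    (hQ : Q = (adp d1 n (gam n)⁻¹)ᵀ * Q1 * adp d1 n (gam n)⁻¹)
    (h : Qᵀ = Q → Irreducible (quart Q d1) ∧ (quart Q d1).natDegree = 4 ∧
      (blk Q).det ≠ 0 ∧ TI (blk Q) 1) :
    Irreducible (quart (Nᵀ * Q1 * N) d) ∧ (quart (Nᵀ * Q1 * N) d).natDegree = 4 ∧
      (blk (Nᵀ * Q1 * N)).det ≠ 0 ∧ TI (blk (Nᵀ * Q1 * N)) 1 := by
  set A := adp d1 n (gam n)⁻¹ with hA
  have hst : Qᵀ = Q := by
    rw [hQ, Matrix.transpose_mul, Matrix.transpose_mul, Matrix.transpose_transpose, hQ1,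
      Matrix.mul_assoc]
  obtain ⟨g1, g2, g3, g4⟩ := h hst
  have hiso : ∀ i j : Fin 3, bJ d1 (n i) (n j) = 0 := by
    intro i j
    have h3 := JJ_entry d1 N ⟨i, by omega⟩ ⟨j, by omega⟩
    rw [hN] at h3
    have h4 : (fun k => N k ⟨i, by omega⟩) = n i := by funext k; rw [hn]
    have h5 : (fun k => N k ⟨j, by omega⟩) = n j := by funext k; rw [hn]
    rw [h4, h5] at h3
    rw [← h3]
    fin_cases i <;> fin_cases j <;> simp [JJ]
  have hAJ : Aᵀ * JJ d1 * A = JJ d1 := adp_orth d1 n _ (gam_inv n hg) hiso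
  have hAd : A.det ≠ 0 := det_ne_of d1 hd1 _ _ hAJ
  have hAu : IsUnit A.det := hAd.isUnit
  set U := A⁻¹ * N with hU
  have hAU : A * U = N := by
    rw [hU, ← Matrix.mul_assoc, Matrix.mul_nonsing_inv _ hAu, Matrix.one_mul]
  have hUJ : Uᵀ * JJ d1 * U = JJ d := by
    calc Uᵀ * JJ d1 * U = Uᵀ * (Aᵀ * JJ d1 * A) * U := by rw [hAJ]
      _ = (A * U)ᵀ * JJ d1 * (A * U) := by
        rw [Matrix.transpose_mul A U]
        simp only [Matrix.mul_assoc]
      _ = JJ d := by rw [hAU, hN]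
  have hNQ : Nᵀ * Q1 * N = Uᵀ * Q * U := by
    rw [← hAU, hQ, Matrix.transpose_mul A U]
    simp only [Matrix.mul_assoc]
  -- the first three columns of `U`
  have hAc : ∀ (i : Fin 3) (j : Fin 7), A j ⟨i, by omega⟩ = N j ⟨i, by omega⟩ := by
    intro i j
    rw [← hn]
    fin_cases i <;> fin_cases j <;> rfl
  have hUc : ∀ (i : Fin 3) (j : Fin 7),
      U j ⟨i, by omega⟩ = (1 : Matrix (Fin 7) (Fin 7) F) j ⟨i, by omega⟩ := by
    intro i j
    have h3 : (A⁻¹ * A) j ⟨i, by omega⟩ = (1 : Matrix (Fin 7) (Fin 7) F) j ⟨i, by omega⟩ := by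
      rw [Matrix.nonsing_inv_mul _ hAu]
    rw [← h3, hU, Matrix.mul_apply, Matrix.mul_apply]
    apply Finset.sum_congr rfl
    intro k _
    rw [hAc]
  have u0 : ∀ i, U i 0 = if i = 0 then 1 else 0 := fun i => by
    have := hUc 0 i
    rw [Matrix.one_apply] at this
    exact this
  have u1 : ∀ i, U i 1 = if i = 1 then 1 else 0 := fun i => by
    have := hUc 1 i
    rw [Matrix.one_apply] at this
    exact this
  have u2 : ∀ i, U i 2 = if i = 2 then 1 else 0 := fun i => by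
    have := hUc 2 i
    rw [Matrix.one_apply] at this
    exact this
  have hq := quart_U Q U d d1 h2 hst hUJ u0 u1 u2
  obtain ⟨-, -, -, -, -, -, c1, -, -⟩ := U_entries U d d1 hUJ u0 u1 u2
  have h33 : U 3 3 ≠ 0 := by
    intro h0
    rw [h0] at c1
    exact hd (by rw [← c1]; ring)
  have hblk : blk (Uᵀ * Q * U) = blk Q := by
    ext i j
    have g : ∀ i j, (Uᵀ * Q * U) i j = ∑ x, (∑ y, U y i * Q y x) * U x j := by
      intro i j
      simp only [Matrix.mul_apply, Matrix.transpose_apply]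
    fin_cases i <;> fin_cases j
    · change (Uᵀ * Q * U) 0 0 = Q 0 0; rw [g]; simp [u0]
    · change (Uᵀ * Q * U) 0 1 = Q 0 1; rw [g]; simp [u0, u1]
    · change (Uᵀ * Q * U) 0 2 = Q 0 2; rw [g]; simp [u0, u2]
    · change (Uᵀ * Q * U) 1 0 = Q 1 0; rw [g]; simp [u0, u1]
    · change (Uᵀ * Q * U) 1 1 = Q 1 1; rw [g]; simp [u1]
    · change (Uᵀ * Q * U) 1 2 = Q 1 2; rw [g]; simp [u1, u2]
    · change (Uᵀ * Q * U) 2 0 = Q 2 0; rw [g]; simp [u0, u2]
    · change (Uᵀ * Q * U) 2 1 = Q 2 1; rw [g]; simp [u1, u2]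
    · change (Uᵀ * Q * U) 2 2 = Q 2 2; rw [g]; simp [u2]
  rw [hNQ, hq, hblk]
  exact ⟨irr_comp _ _ _ h33 g1, by rw [deg_comp _ _ _ h33]; exact g2, g3, g4⟩

end alg

/-- a prime element is not the square of an absolute value -/
theorem val_odd (F : Type) [NontriviallyNormedField F] [IsUltrametricDist F] [ProperSpace F] :
    ∃ c : F, c ≠ 0 ∧ ∀ x : F, ‖x‖ ^ 2 ≠ ‖c‖ := by
  obtain ⟨c, hc, hc1, h⟩ := Pool.Agent.H55.QCL.pf_VAL F
  refine ⟨c, hc, fun x hx => ?_⟩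
  have hcn : 0 < ‖c‖ := norm_pos_iff.2 hc
  have hx0 : x ≠ 0 := by
    rintro rfl
    rw [norm_zero] at hx
    exact hcn.ne (by rw [← hx]; norm_num)
  obtain ⟨n, hn⟩ := h x hx0
  rw [hn, ← zpow_natCast, ← _root_.zpow_mul] at hx
  have h1 : ‖c‖ ^ (n * ((2 : ℕ) : ℤ)) = ‖c‖ ^ (1 : ℤ) := by rw [zpow_one]; exact hx
  have h2 := (zpow_right_injective₀ hcn hc1.ne) h1
  omega

theorem pf_PLO : T_PLO := by
  intro F _ _ _ _ P D hP h7 _ hD hsq t ht
  have h2 : (2 : F) ≠ 0 := two_ne_zero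
  obtain ⟨c, hc0, hc⟩ := val_odd F
  obtain ⟨B0, A1, A2, A4, A5, A6, A7, w, hB0, hB0q⟩ := base h2 hP h7 hD hsq ht
  set d1 : F := -eval t P with hd1
  have hd10 : d1 ≠ 0 := neg_ne_zero.2 ht
  obtain ⟨a, b, r, hr, hs, hall⟩ := small2 c hc0 hc h2 d1 (d1 / 2) hd10 rfl A1 A2 A4 A5 A6 A7 w
  obtain ⟨Q1, hQ1⟩ : ∃ Q1, Q1 = CT a b * QQ A1 A2 A4 A5 A6 A7 w * (CT a b)ᵀ := ⟨_, rfl⟩
  obtain ⟨k4, k0, k1, k2, k3, kb, k5⟩ := hall Q1 hQ1
  have hQ1s : Q1ᵀ = Q1 := (CT_QQ a b A1 A2 A4 A5 A6 A7 w Q1 hQ1).1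
  obtain ⟨e, he, hopn⟩ := Pool.Agent.H55.QCL.pf_OPN Pool.Agent.H55.QCL.pf_HEN F 1 one_ne_zero
  have hopn' : ∀ c : F, ‖c - 1‖ < e → IsSquare c := fun c hc => by
    have := (hopn c hc).2
    rwa [div_one] at this
  have hopen := open_good Q1 d1 (d1 / 2) r rfl hr k4 k0 k1 k2 k3 hs kb k5 e he hopn'
  set B1 := B0 * (CT a b)ᵀ with hB1
  have f1 : B1ᵀ * ft P D t * B1 = JJ d1 := by
    calc B1ᵀ * ft P D t * B1 = CT a b * (B0ᵀ * ft P D t * B0) * (CT a b)ᵀ := by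
          rw [hB1, Matrix.transpose_mul, Matrix.transpose_transpose]
          simp only [Matrix.mul_assoc]
      _ = JJ d1 := by rw [hB0, CT_G0]
  have q1 : B1ᵀ * gA P D 0 * B1 = Q1 := by
    calc B1ᵀ * gA P D 0 * B1 = CT a b * (B0ᵀ * gA P D 0 * B0) * (CT a b)ᵀ := by
          rw [hB1, Matrix.transpose_mul, Matrix.transpose_transpose]
          simp only [Matrix.mul_assoc]
      _ = Q1 := by rw [hB0q, hQ1]
  have hB1d : B1.det ≠ 0 := det_ne_of d1 hd10 _ _ f1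
  have hB1u : IsUnit B1.det := hB1d.isUnit
  set p : Fin 3 → Fin 7 → F := fun i j => B1 j ⟨i, by omega⟩ with hp
  -- the map to adapted frames
  set L : (Fin 3 → Fin 7 → F) → (Fin 3 → Fin 7 → F) := fun c i => B1⁻¹ *ᵥ c i with hL
  have hLp : L p = e3 := by
    funext i k
    have h3 : (B1⁻¹ * B1) k ⟨i, by omega⟩ = (1 : Matrix (Fin 7) (Fin 7) F) k ⟨i, by omega⟩ := by
      rw [Matrix.nonsing_inv_mul _ hB1u]
    rw [e3_eq, ← h3]
    rfl
  have hLc : Continuous L := by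
    rw [hL]
    refine continuous_pi fun i => ?_
    exact Continuous.matrix_mulVec continuous_const (continuous_apply i)
  set Ψ : (Fin 3 → Fin 7 → F) → Matrix (Fin 7) (Fin 7) F := fun n =>
    (adp d1 n (gam n)⁻¹)ᵀ * Q1 * adp d1 n (gam n)⁻¹ with hΨ
  have hΨ3 : Ψ e3 = Q1 := by
    rw [hΨ]
    simp only [gam_e3, inv_one, adp_e3, Matrix.transpose_one, Matrix.one_mul, Matrix.mul_one]
  have hΨc : ContinuousAt Ψ e3 := by
    have h3 := cont_Ad d1
    have h4 : ContinuousAt (fun n : Fin 3 → Fin 7 → F => (adp d1 n (gam n)⁻¹)ᵀ) e3 :=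
      (continuous_id.matrix_transpose).continuousAt.comp h3
    exact (h4.mul continuousAt_const).mul h3
  have ht1 : Tendsto (fun c => Ψ (L c)) (𝓝 p) (𝓝 Q1) := by
    have h3 : ContinuousAt (fun c => Ψ (L c)) p :=
      ContinuousAt.comp (g := Ψ) (f := L) (by rw [hLp]; exact hΨc) hLc.continuousAt
    have h4 := h3.tendsto
    simp only [hLp, hΨ3] at h4
    exact h4
  have ht2 : ∀ᶠ c in 𝓝 p, (gam (L c)).det ≠ 0 := by
    have h3 : Continuous fun c => (gam (L c)).det := (cont_gam.comp hLc).matrix_det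
    have h4 : (gam (L p)).det ≠ 0 := by
      rw [hLp, gam_e3, Matrix.det_one]
      exact one_ne_zero
    exact h3.continuousAt.eventually_ne h4
  obtain ⟨ε, hε, hball⟩ := Metric.eventually_nhds_iff.1 ((ht1.eventually hopen).and ht2)
  refine ⟨p, ε, hε, ?_, ?_, ?_⟩
  · -- linear independence
    have h3 : LinearIndependent F (fun j : Fin 7 => fun i => B1 i j) := by
      have h4 := Matrix.linearIndependent_cols_iff_isUnit.2
        ((Matrix.isUnit_iff_isUnit_det B1).2 hB1u)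
      exact h4
    exact h3.comp (fun i : Fin 3 => (⟨i, by omega⟩ : Fin 7)) fun i j hij => by
      have := congrArg Fin.val hij
      exact Fin.ext this
  · intro i j
    have h3 := entry (ft P D t) B1 ⟨i, by omega⟩ ⟨j, by omega⟩
    rw [f1] at h3
    rw [hp]
    rw [← h3]
    fin_cases i <;> fin_cases j <;> simp [JJ]
  · intro B d hd hB hclose
    set cc : Fin 3 → Fin 7 → F := fun i j => B j ⟨i, by omega⟩ with hcc
    have hdist : dist cc p < ε := by
      rw [dist_pi_lt_iff hε]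
      intro i
      rw [dist_pi_lt_iff hε]
      intro j
      rw [dist_eq_norm]
      exact hclose i j
    obtain ⟨hgood, hdet⟩ := hball hdist
    set N := B1⁻¹ * B with hN
    have hBN : B1 * N = B := by
      rw [hN, ← Matrix.mul_assoc, Matrix.mul_nonsing_inv _ hB1u, Matrix.one_mul]
    have hNJ : Nᵀ * JJ d1 * N = JJ d := by
      calc Nᵀ * JJ d1 * N = Nᵀ * (B1ᵀ * ft P D t * B1) * N := by rw [f1]
        _ = (B1 * N)ᵀ * ft P D t * (B1 * N) := by
          rw [Matrix.transpose_mul B1 N]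
          simp only [Matrix.mul_assoc]
        _ = JJ d := by rw [hBN, hB]
    have hNQ : Bᵀ * gA P D 0 * B = Nᵀ * Q1 * N := by
      rw [← q1, ← hBN, Matrix.transpose_mul B1 N]
      simp only [Matrix.mul_assoc]
    rw [hNQ]
    refine compare h2 Q1 N d d1 hd hd10 hQ1s hNJ (L cc) ?_ hdet (Ψ (L cc)) rfl hgood
    intro i j
    rfl

end Pool.Agent.H70.N6
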