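import Mathlib

/-!
# An irreducibility criterion for quartic polynomials over a nonarchimedean field
-/

set_option autoImplicit false

open Polynomial

namespace Pool.Agent.H70.N6

theorem um_add {F : Type*} [NormedField F] [IsUltrametricDist F] {x y : F} {M : ℝ}
    (hx : ‖x‖ < M) (hy : ‖y‖ < M) : ‖x + y‖ < M :=
  lt_of_le_of_lt (IsUltrametricDist.norm_add_le_max x y) (max_lt hx hy)

/-- a root has absolute value `r` -/
theorem cri_root {F : Type*} [NormedField F] [IsUltrametricDist F] (a0 a1 a2 a3 x : F) (r : ℝ)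
    (hr : 0 < r) (h0 : ‖a0‖ = r ^ 4) (h1 : ‖a1‖ ≤ r ^ 3) (h2 : ‖a2‖ ≤ r ^ 2) (h3 : ‖a3‖ ≤ r)
    (hx : x ^ 4 + a3 * x ^ 3 + a2 * x ^ 2 + a1 * x + a0 = 0) : ‖x‖ = r := by
  rcases lt_trichotomy ‖x‖ r with h | h | h
  · exfalso
    have e : -a0 = x ^ 4 + a3 * x ^ 3 + a2 * x ^ 2 + a1 * x := by linear_combination -hx
    have hx0 : 0 ≤ ‖x‖ := norm_nonneg x
    have k4 : ‖x ^ 4‖ < r ^ 4 := by
      rw [norm_pow]; exact pow_lt_pow_left₀ h hx0 (by norm_num)
    have k3 : ‖a3 * x ^ 3‖ < r ^ 4 := by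
      rw [norm_mul, norm_pow]
      calc ‖a3‖ * ‖x‖ ^ 3 ≤ r * ‖x‖ ^ 3 := by gcongr
        _ < r * r ^ 3 := by gcongr
        _ = r ^ 4 := by ring
    have k2 : ‖a2 * x ^ 2‖ < r ^ 4 := by
      rw [norm_mul, norm_pow]
      calc ‖a2‖ * ‖x‖ ^ 2 ≤ r ^ 2 * ‖x‖ ^ 2 := by gcongr
        _ < r ^ 2 * r ^ 2 := by gcongr
        _ = r ^ 4 := by ring
    have k1 : ‖a1 * x‖ < r ^ 4 := by
      rw [norm_mul]
      calc ‖a1‖ * ‖x‖ ≤ r ^ 3 * ‖x‖ := by gcongr
        _ < r ^ 3 * r := by gcongr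
        _ = r ^ 4 := by ring
    have := um_add (um_add (um_add k4 k3) k2) k1
    rw [← e, norm_neg, h0] at this
    exact lt_irrefl _ this
  · exact h
  · exfalso
    have e : -x ^ 4 = a3 * x ^ 3 + a2 * x ^ 2 + a1 * x + a0 := by linear_combination -hx
    have hx0 : 0 < ‖x‖ := hr.trans h
    have k3 : ‖a3 * x ^ 3‖ < ‖x‖ ^ 4 := by
      rw [norm_mul, norm_pow]
      calc ‖a3‖ * ‖x‖ ^ 3 ≤ r * ‖x‖ ^ 3 := by gcongr
        _ < ‖x‖ * ‖x‖ ^ 3 := by gcongr
        _ = ‖x‖ ^ 4 := by ring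
    have k2 : ‖a2 * x ^ 2‖ < ‖x‖ ^ 4 := by
      rw [norm_mul, norm_pow]
      calc ‖a2‖ * ‖x‖ ^ 2 ≤ r ^ 2 * ‖x‖ ^ 2 := by gcongr
        _ < ‖x‖ ^ 2 * ‖x‖ ^ 2 := by gcongr
        _ = ‖x‖ ^ 4 := by ring
    have k1 : ‖a1 * x‖ < ‖x‖ ^ 4 := by
      rw [norm_mul]
      calc ‖a1‖ * ‖x‖ ≤ r ^ 3 * ‖x‖ := by gcongr
        _ < ‖x‖ ^ 3 * ‖x‖ := by gcongr
        _ = ‖x‖ ^ 4 := by ring
    have k0 : ‖a0‖ < ‖x‖ ^ 4 := by
      rw [h0]; exact pow_lt_pow_left₀ h hr.le (by norm_num)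
    have := um_add (um_add (um_add k3 k2) k1) k0
    rw [← e, norm_neg, norm_pow] at this
    exact lt_irrefl _ this

/-- the two constant coefficients have the same absolute value, one direction -/
theorem cri_quad {F : Type*} [NormedField F] [IsUltrametricDist F] (b0 b1 c0 c1 : F) (r : ℝ)
    (hr : 0 < r) (h0 : ‖b0 * c0‖ = r ^ 4) (h1 : ‖b1 * c0 + b0 * c1‖ ≤ r ^ 3)
    (h2 : ‖b0 + c0 + b1 * c1‖ ≤ r ^ 2) (h3 : ‖b1 + c1‖ ≤ r) (hlt : r ^ 2 < ‖b0‖) : False := by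
  have hb : 0 < ‖b0‖ := (pow_pos hr 2).trans hlt
  have hc : ‖c0‖ < r ^ 2 := by
    by_contra h
    rw [not_lt] at h
    have : r ^ 2 * r ^ 2 < ‖b0‖ * ‖c0‖ := by
      have h5 : 0 < r ^ 2 := pow_pos hr 2
      nlinarith
    rw [← norm_mul, h0] at this
    nlinarith [this]
  have e1 : ‖b1 * c1‖ = ‖b0‖ := by
    have h5 : b1 * c1 = (b0 + c0 + b1 * c1 - c0) + (-b0) := by ring
    have h6 : ‖b0 + c0 + b1 * c1 - c0‖ < ‖b0‖ := by
      rw [sub_eq_add_neg]
      exact um_add (h2.trans_lt hlt) (by rw [norm_neg]; exact hc.trans hlt)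
    rw [h5, IsUltrametricDist.norm_add_eq_max_of_norm_ne_norm (by rw [norm_neg]; exact h6.ne),
      norm_neg, max_eq_right h6.le]
  have e2 : ‖b1‖ = ‖c1‖ := by
    by_contra h
    have h5 := IsUltrametricDist.norm_add_eq_max_of_norm_ne_norm h
    rw [h5, max_le_iff] at h3
    have h6 : ‖b1‖ * ‖c1‖ ≤ r * r := mul_le_mul h3.1 h3.2 (norm_nonneg _) hr.le
    rw [← norm_mul, e1] at h6
    nlinarith
  have e3 : ‖c1‖ ^ 2 = ‖b0‖ := by rw [← e1, norm_mul, e2]; ring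
  have e4 : r < ‖c1‖ := by
    by_contra h
    rw [not_lt] at h
    have := pow_le_pow_left₀ (norm_nonneg c1) h 2
    rw [e3] at this
    exact absurd hlt (not_lt.2 this)
  have e5 : ‖b1 * c0‖ < ‖b0 * c1‖ := by
    rw [norm_mul, norm_mul, e2, mul_comm]
    exact mul_lt_mul_of_pos_right (hc.trans hlt) (hr.trans e4)
  have e6 : ‖b1 * c0 + b0 * c1‖ = ‖b0 * c1‖ := by
    rw [IsUltrametricDist.norm_add_eq_max_of_norm_ne_norm e5.ne, max_eq_right e5.le]
  rw [e6, norm_mul] at h1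
  have : r ^ 2 * r < ‖b0‖ * ‖c1‖ := by
    exact mul_lt_mul'' hlt e4 (pow_pos hr 2).le hr.le
  nlinarith

/-- the criterion -/
theorem cri {F : Type*} [NormedField F] [IsUltrametricDist F] (a0 a1 a2 a3 : F) (r : ℝ)
    (hr : 0 < r) (h0 : ‖a0‖ = r ^ 4) (h1 : ‖a1‖ ≤ r ^ 3) (h2 : ‖a2‖ ≤ r ^ 2) (h3 : ‖a3‖ ≤ r)
    (hs : ∀ x : F, ‖x‖ ≠ r ^ 2) :
    Irreducible (X ^ 4 + C a3 * X ^ 3 + C a2 * X ^ 2 + C a1 * X + C a0 : F[X]) := by
  set D : F[X] := X ^ 4 + C a3 * X ^ 3 + C a2 * X ^ 2 + C a1 * X + C a0 with hD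
  have hmon : D.Monic := by rw [hD]; monicity!
  have hdeg : D.natDegree = 4 := by rw [hD]; compute_degree!
  rw [hmon.irreducible_iff_natDegree']
  refine ⟨fun h => by rw [h, natDegree_one] at hdeg; exact absurd hdeg (by norm_num), ?_⟩
  intro f g hf hg hfg hmem
  rw [hdeg, Finset.mem_Ioc] at hmem
  have hdfg : f.natDegree + g.natDegree = 4 := by
    rw [← hf.natDegree_mul hg, hfg, hdeg]
  have hco : ∀ i, D.coeff i = (f * g).coeff i := fun i => by rw [hfg]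
  have hcases : g.natDegree = 1 ∨ g.natDegree = 2 := by omega
  rcases hcases with h | h
  · obtain ⟨c, hc⟩ : ∃ c, g = X + C c := by
      refine ⟨g.coeff 0, ?_⟩
      have h5 := hg.eq_X_add_C h
      exact h5
    have hev : D.eval (-c) = 0 := by rw [← hfg, hc]; simp
    have hx : (-c) ^ 4 + a3 * (-c) ^ 3 + a2 * (-c) ^ 2 + a1 * (-c) + a0 = 0 := by
      rw [hD] at hev
      simpa using hev
    have h6 := cri_root a0 a1 a2 a3 (-c) r hr h0 h1 h2 h3 hx
    exact hs ((-c) ^ 2) (by rw [norm_pow, h6])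
  · have hf2 : f.natDegree = 2 := by omega
    have eg : g = X ^ 2 + C (g.coeff 1) * X + C (g.coeff 0) := by
      have h5 := g.as_sum_range_C_mul_X_pow
      rw [h] at h5
      simp only [Finset.sum_range_succ, Finset.sum_range_zero] at h5
      have h7 : g.coeff 2 = 1 := by rw [← h]; exact hg
      rw [h7] at h5
      nth_rewrite 1 [h5]
      rw [C_1]
      ring
    have ef : f = X ^ 2 + C (f.coeff 1) * X + C (f.coeff 0) := by
      have h5 := f.as_sum_range_C_mul_X_pow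
      rw [hf2] at h5
      simp only [Finset.sum_range_succ, Finset.sum_range_zero] at h5
      have h7 : f.coeff 2 = 1 := by rw [← hf2]; exact hf
      rw [h7] at h5
      nth_rewrite 1 [h5]
      rw [C_1]
      ring
    generalize g.coeff 1 = c1 at eg
    generalize g.coeff 0 = c0 at eg
    generalize f.coeff 1 = b1 at ef
    generalize f.coeff 0 = b0 at ef
    have hprod : D = X ^ 4 + C (b1 + c1) * X ^ 3 + C (b0 + c0 + b1 * c1) * X ^ 2 +
        C (b1 * c0 + b0 * c1) * X + C (b0 * c0) := by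
      rw [← hfg, ef, eg]
      simp only [C_add, C_mul]
      ring
    have q3 : a3 = b1 + c1 := by
      have := congrArg (fun p => coeff p 3) (hD.symm.trans hprod)
      simp only [coeff_add, coeff_C_mul, coeff_X_pow, coeff_X, coeff_C] at this
      simpa using this
    have q2 : a2 = b0 + c0 + b1 * c1 := by
      have := congrArg (fun p => coeff p 2) (hD.symm.trans hprod)
      simp only [coeff_add, coeff_C_mul, coeff_X_pow, coeff_X, coeff_C] at this
      simpa using this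
    have q1 : a1 = b1 * c0 + b0 * c1 := by
      have := congrArg (fun p => coeff p 1) (hD.symm.trans hprod)
      simp only [coeff_add, coeff_C_mul, coeff_X_pow, coeff_X, coeff_C] at this
      simpa using this
    have q0 : a0 = b0 * c0 := by
      have := congrArg (fun p => coeff p 0) (hD.symm.trans hprod)
      simp only [coeff_add, coeff_C_mul, coeff_X_pow, coeff_X, coeff_C] at this
      simpa using this
    rw [q3] at h3
    rw [q2] at h2
    rw [q1] at h1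
    rw [q0] at h0
    have hb : ‖b0‖ ≤ r ^ 2 := not_lt.1 fun hlt => cri_quad b0 b1 c0 c1 r hr h0 h1 h2 h3 hlt
    have hc : ‖c0‖ ≤ r ^ 2 := not_lt.1 fun hlt => cri_quad c0 c1 b0 b1 r hr
      (by rw [mul_comm]; exact h0)
      (by rw [show c1 * b0 + c0 * b1 = b1 * c0 + b0 * c1 by ring]; exact h1)
      (by rw [show c0 + b0 + c1 * b1 = b0 + c0 + b1 * c1 by ring]; exact h2)
      (by rw [add_comm]; exact h3) hlt
    have hb' := lt_of_le_of_ne hb (hs b0)
    have : ‖b0‖ * ‖c0‖ < r ^ 4 := by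
      calc ‖b0‖ * ‖c0‖ ≤ ‖b0‖ * r ^ 2 := by gcongr
        _ < r ^ 2 * r ^ 2 := by
          have := pow_pos hr 2
          exact mul_lt_mul_of_pos_right hb' this
        _ = r ^ 4 := by ring
    rw [← norm_mul, h0] at this
    exact lt_irrefl _ this

end Pool.Agent.H70.N6
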