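import Pool.Agent.H34.N6.Defs

/-!
# The quartic in terms of the Gram matrix
-/

set_option autoImplicit false

open Matrix Polynomial Pool.Agent.H34.N6

namespace Pool.Agent.H70.N6

section qua

variable {F : Type*} [Field F]

theorem quart_eq (Q : Matrix (Fin 7) (Fin 7) F) (d h : F) (hd : d / 2 = h) (hs : Qᵀ = Q) :
    quart Q d =
      C (Q 0 0 * Q 1 1 - Q 0 1 ^ 2) * (C (Q 6 6) + C (2 * Q 3 6) * X +
        C (Q 3 3 - 2 * h * Q 2 6) * X ^ 2 - C (2 * h * Q 2 3) * X ^ 3 +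
        C (h ^ 2 * Q 2 2) * X ^ 4) -
      C (Q 0 0) * (C (Q 1 6) + C (Q 1 3) * X - C (h * Q 1 2) * X ^ 2) ^ 2 +
      C (2 * Q 0 1) * (C (Q 0 6) + C (Q 0 3) * X - C (h * Q 0 2) * X ^ 2) *
        (C (Q 1 6) + C (Q 1 3) * X - C (h * Q 1 2) * X ^ 2) -
      C (Q 1 1) * (C (Q 0 6) + C (Q 0 3) * X - C (h * Q 0 2) * X ^ 2) ^ 2 := by
  have hs' : ∀ i j, Q i j = Q j i := fun i j => by
    conv_lhs => rw [← hs]
    rfl
  unfold quart
  rw [Matrix.det_fin_three]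
  simp only [Matrix.of_apply, uu, dotProduct, mulVec, Fin.sum_univ_seven, Matrix.map_apply, hd,
    Matrix.cons_val_zero, Matrix.cons_val_one, Matrix.cons_val]
  rw [hs' 1 0, hs' 2 0, hs' 2 1, hs' 3 0, hs' 3 1, hs' 3 2, hs' 6 0, hs' 6 1, hs' 6 2, hs' 6 3]
  simp only [C_sub, C_mul, C_pow, C_ofNat]
  ring

end qua

end Pool.Agent.H70.N6
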