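import Pool.Agent.H70.N6.TabC
import Pool.Agent.H70.N6.Qua
import Pool.Agent.H70.N6.Cri

/-!
# The deformed frame has an irreducible quartic
-/

set_option autoImplicit false

open Matrix Polynomial Pool.Agent.H34.N6
open scoped Topology

namespace Pool.Agent.H70.N6

section alg

variable {F : Type*} [Field F]

/-- constant coefficient divided by the parameter -/
def k0 (c h A1 A4 A7 w x : F) : F :=
  x * ((-2 + x * A1) * (-2 * c) - (x * c * w) ^ 2) * (x ^ 2 * A7) - (-2 + x * A1) +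
    2 * (x * c * w) * (-x * w - x ^ 2 * A4 - x ^ 2 * (c * x)) -
    (-2 * c) * (-x * w - x ^ 2 * A4 - x ^ 2 * (c * x)) ^ 2 + 0 * h

/-- linear coefficient divided by the parameter -/
def k1 (c h A1 A2 A4 A6 w x : F) : F :=
  x * ((-2 + x * A1) * (-2 * c) - (x * c * w) ^ 2) * (2 * (-1 - x * A6)) -
    2 * (-2 + x * A1) * (c * x) +
    2 * (x * c * w) * ((-x * w - x ^ 2 * A4 - x ^ 2 * (c * x)) * (c * x) + x * A2) -
    2 * (-2 * c) * (-x * w - x ^ 2 * A4 - x ^ 2 * (c * x)) * (x * A2) + 0 * h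

/-- quadratic coefficient divided by the parameter -/
def k2 (c h A1 A2 A4 A5 w x : F) : F :=
  x * ((-2 + x * A1) * (-2 * c) - (x * c * w) ^ 2) *
      (A5 - 2 * h * (-w - x * A4 - x * (c * x))) -
    (-2 + x * A1) * ((c * x) ^ 2 - 2 * h * (c * x * w)) +
    2 * (x * c * w) * (x * A2 * (c * x) - h * ((-x * w - x ^ 2 * A4 - x ^ 2 * (c * x)) *
      (c * x * w) + (-1 + x * A1))) -
    (-2 * c) * ((x * A2) ^ 2 - 2 * h * (-x * w - x ^ 2 * A4 - x ^ 2 * (c * x)) * (-1 + x * A1))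

/-- cubic coefficient divided by the parameter -/
def k3 (c h A1 A2 w x : F) : F :=
  -(x * ((-2 + x * A1) * (-2 * c) - (x * c * w) ^ 2) * (2 * h * A2)) +
    2 * (-2 + x * A1) * h * (c * x) * (c * x * w) -
    2 * (x * c * w) * h * (x * A2 * (c * x * w) + (-1 + x * A1) * (c * x)) +
    2 * (-2 * c) * h * (x * A2) * (-1 + x * A1)

/-- quartic coefficient divided by the parameter -/
def k4 (c h A1 w x : F) : F :=
  x * ((-2 + x * A1) * (-2 * c) - (x * c * w) ^ 2) * (h ^ 2 * A1) -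
    (-2 + x * A1) * h ^ 2 * (c * x * w) ^ 2 +
    2 * (x * c * w) * h ^ 2 * (-1 + x * A1) * (c * x * w) -
    (-2 * c) * h ^ 2 * (-1 + x * A1) ^ 2

theorem quart_def (c d h x A1 A2 A4 A5 A6 A7 w : F) (hd : d / 2 = h)
    (Q : Matrix (Fin 7) (Fin 7) F)
    (hQ : Q = CT x (c * x) * QQ A1 A2 A4 A5 A6 A7 w * (CT x (c * x))ᵀ) :
    quart Q d = C x * (C (k4 c h A1 w x) * X ^ 4 + C (k3 c h A1 A2 w x) * X ^ 3 +
      C (k2 c h A1 A2 A4 A5 w x) * X ^ 2 + C (k1 c h A1 A2 A4 A6 w x) * X +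
      C (k0 c h A1 A4 A7 w x)) := by
  obtain ⟨hs, q00, q01, q11, q02, q12, q22, q03, q13, q23, q33, q06, q16, q26, q36, q66⟩ :=
    CT_QQ x (c * x) A1 A2 A4 A5 A6 A7 w Q hQ
  rw [quart_eq Q d h hd hs, q00, q01, q11, q02, q12, q22, q03, q13, q23, q33, q06, q16, q26,
    q36, q66]
  simp only [k0, k1, k2, k3, k4, C_add, C_sub, C_mul, C_pow, C_neg, C_1, C_0, C_ofNat]
  ring

theorem ti_def (c x A1 A2 A4 A5 A6 A7 w : F)
    (Q : Matrix (Fin 7) (Fin 7) F)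
    (hQ : Q = CT x (c * x) * QQ A1 A2 A4 A5 A6 A7 w * (CT x (c * x))ᵀ) :
    TI (blk Q) 1 := by
  obtain ⟨hs, q00, q01, q11, q02, q12, q22, q03, q13, q23, q33, q06, q16, q26, q36, q66⟩ :=
    CT_QQ x (c * x) A1 A2 A4 A5 A6 A7 w Q hQ
  have hs' : ∀ i j, Q i j = Q j i := fun i j => by
    conv_lhs => rw [← hs]
    rfl
  refine ⟨fun _ => ![1, 0, -x], ?_, ?_⟩
  · rw [linearIndependent_unique_iff]
    intro h
    exact one_ne_zero (congrFun h 0)
  · intro i j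
    simp only [blk, dotProduct, mulVec, Fin.sum_univ_three, Matrix.cons_val_zero,
      Matrix.cons_val_one, Matrix.cons_val]
    have e1 : Q ⟨((0 : Fin 3) : ℕ), by decide⟩ ⟨((0 : Fin 3) : ℕ), by decide⟩ = Q 0 0 := rfl
    have e2 : Q ⟨((0 : Fin 3) : ℕ), by decide⟩ ⟨((2 : Fin 3) : ℕ), by decide⟩ = Q 0 2 := rfl
    have e3 : Q ⟨((2 : Fin 3) : ℕ), by decide⟩ ⟨((0 : Fin 3) : ℕ), by decide⟩ = Q 2 0 := rfl
    have e4 : Q ⟨((2 : Fin 3) : ℕ), by decide⟩ ⟨((2 : Fin 3) : ℕ), by decide⟩ = Q 2 2 := rfl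
    rw [e1, e2, e3, e4, hs' 2 0, q00, q02, q22]
    ring

end alg

end Pool.Agent.H70.N6
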