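import Pool.Agent.H34.N6.Lib

/-!
# Two quadrics over the reals: signs, and the sum over the roots
-/

set_option autoImplicit false

open Polynomial Pool.Agent.H34.N6

namespace Pool.Agent.H70.N6

/-- the sign as an integer -/
noncomputable def sg (x : ℝ) : ℤ := if 0 < x then 1 else -1

theorem sg_pos {x : ℝ} (h : 0 < x) : sg x = 1 := if_pos h

theorem sg_neg {x : ℝ} (h : x < 0) : sg x = -1 := if_neg (not_lt.2 h.le)

theorem sg_or (x : ℝ) : sg x = 1 ∨ sg x = -1 := by
  unfold sg
  split_ifs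
  · exact Or.inl rfl
  · exact Or.inr rfl

theorem sg_mul {x y : ℝ} (hx : x ≠ 0) (hy : y ≠ 0) : sg (x * y) = sg x * sg y := by
  rcases lt_or_gt_of_ne hx with h1 | h1 <;> rcases lt_or_gt_of_ne hy with h2 | h2
  · rw [sg_pos (mul_pos_of_neg_of_neg h1 h2), sg_neg h1, sg_neg h2]
    norm_num
  · rw [sg_neg (mul_neg_of_neg_of_pos h1 h2), sg_neg h1, sg_pos h2]
    norm_num
  · rw [sg_neg (mul_neg_of_pos_of_neg h1 h2), sg_pos h1, sg_neg h2]
    norm_num
  · rw [sg_pos (mul_pos h1 h2), sg_pos h1, sg_pos h2]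
    norm_num

/-- all values are attained -/
theorem comb (s : ℝ → ℤ) (hs : ∀ e, s e = 1 ∨ s e = -1) (R : Finset ℝ) :
    ∀ M : ℝ, (∀ e ∈ R, e < M) → ∀ v : ℤ, Even (v - ∑ e ∈ R, s e) → |v| ≤ |∑ e ∈ R, s e| →
      ∃ t < M, t ∉ R ∧ ∑ e ∈ R, s e * sg (e - t) = v := by
  induction R using Finset.induction_on_max with
  | empty =>
    intro M _ v _ hv
    refine ⟨M - 1, by linarith, Finset.notMem_empty _, ?_⟩
    simp only [Finset.sum_empty, abs_zero] at hv ⊢
    exact (abs_nonpos_iff.1 hv).symm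
  | insert a R hmax ih =>
    intro M hM v hpar hle
    have ha : a ∉ R := fun h => lt_irrefl _ (hmax a h)
    rw [Finset.sum_insert ha] at hpar hle
    by_cases hc : |v - s a| ≤ |∑ e ∈ R, s e|
    · obtain ⟨t, ht, htR, hsum⟩ := ih a hmax (v - s a) (by
        obtain ⟨c, hc⟩ := hpar
        exact ⟨c, by linarith⟩) hc
      refine ⟨t, ht.trans (hM a (Finset.mem_insert_self _ _)), ?_, ?_⟩
      · rw [Finset.mem_insert, not_or]
        exact ⟨ht.ne, htR⟩
      · rw [Finset.sum_insert ha, hsum, sg_pos (by linarith)]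
        ring
    · have haM := hM a (Finset.mem_insert_self _ _)
      have hall : ∀ e ∈ insert a R, e < (a + M) / 2 := by
        intro e he
        rcases Finset.mem_insert.1 he with h | h
        · rw [h]
          linarith
        · have := hmax e h
          linarith
      refine ⟨(a + M) / 2, by linarith, fun h => lt_irrefl _ (hall _ h), ?_⟩
      have h1 : ∑ e ∈ insert a R, s e * sg (e - (a + M) / 2) = -∑ e ∈ insert a R, s e := by
        rw [← Finset.sum_neg_distrib]
        apply Finset.sum_congr rfl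
        intro e he
        rw [sg_neg (by have := hall e he; linarith)]
        ring
      rw [h1, Finset.sum_insert ha]
      set S := ∑ e ∈ R, s e
      obtain ⟨c, hc'⟩ := hpar
      rcases hs a with h | h <;> rw [h] at hc hle hc' ⊢ <;>
        rcases abs_cases v with ⟨h2, h3⟩ | ⟨h2, h3⟩ <;>
        rcases abs_cases S with ⟨h4, h5⟩ | ⟨h4, h5⟩ <;>
        rcases abs_cases (v - 1) with ⟨h6, h7⟩ | ⟨h6, h7⟩ <;>
        rcases abs_cases (v - -1) with ⟨h8, h9⟩ | ⟨h8, h9⟩ <;>
        rcases abs_cases (1 + S) with ⟨h10, h11⟩ | ⟨h10, h11⟩ <;>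
        rcases abs_cases (-1 + S) with ⟨h12, h13⟩ | ⟨h12, h13⟩ <;> omega

theorem parity (s : ℝ → ℤ) (hs : ∀ e, s e = 1 ∨ s e = -1) (R : Finset ℝ) :
    Even (∑ e ∈ R, s e - R.card) := by
  induction R using Finset.induction_on with
  | empty => simp
  | insert a R ha ih =>
    rw [Finset.sum_insert ha, Finset.card_insert_of_notMem ha]
    obtain ⟨c, hc⟩ := ih
    push_cast
    rcases hs a with h | h
    · exact ⟨c, by rw [h]; linarith⟩
    · exact ⟨c - 1, by rw [h]; linarith⟩

/-- a point where the signs add up to one -/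
theorem exists_one (s : ℝ → ℤ) (hs : ∀ e, s e = 1 ∨ s e = -1) (R : Finset ℝ) (hR : Odd R.card) :
    ∃ t, t ∉ R ∧ ∑ e ∈ R, s e * sg (e - t) = 1 := by
  obtain ⟨M, hM⟩ : ∃ M : ℝ, ∀ e ∈ R, e < M := by
    obtain ⟨M, hM⟩ := R.exists_le
    exact ⟨M + 1, fun e he => by have := hM e he; linarith⟩
  obtain ⟨c, hc⟩ := parity s hs R
  obtain ⟨m, hm⟩ := hR
  have hodd : ∑ e ∈ R, s e = 2 * (c + m) + 1 := by
    rw [hm] at hc
    push_cast at hc
    linarith
  obtain ⟨t, -, h1, h2⟩ := comb s hs R M hM 1 ⟨-(c + m), by rw [hodd]; ring⟩ (by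
    rw [hodd, abs_one]
    rcases abs_cases (2 * (c + m) + 1) with ⟨h, h'⟩ | ⟨h, h'⟩ <;> omega)
  exact ⟨t, h1, h2⟩

/-- the functional as a sum over the roots -/
theorem lam_sum_roots {F : Type*} [Field F] [DecidableEq F] {P : F[X]} (hP : P.Monic)
    (hs : P.Splits) (hsep : P.Separable) (g : F[X]) :
    lam P g = ∑ e ∈ P.roots.toFinset, eval e g / eval e (derivative P) := by
  set s := P.roots.toFinset with hsd
  have h3 : P.roots.Nodup := Polynomial.nodup_roots hsep
  have hPn : P = Lagrange.nodal s id := by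
    have h2 : P = (P.roots.map fun a => X - C a).prod := hs.eq_prod_roots_of_monic hP
    have h5 : (P.roots.map fun a => X - C a).prod = ∏ a ∈ s, (X - C a) := by
      rw [Finset.prod_eq_multiset_prod]
      congr 2
      exact (Multiset.dedup_eq_self.2 h3).symm
    rw [Lagrange.nodal_eq]
    rw [h5] at h2
    exact h2
  have hcard : s.card = P.natDegree := by
    rw [hPn, Lagrange.natDegree_nodal]
  have hdeg : (g %ₘ P).degree < (s.card : WithBot ℕ) := by
    rw [hcard, ← degree_eq_natDegree hP.ne_zero]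
    exact degree_modByMonic_lt g hP
  have h4 := Lagrange.coeff_eq_sum (s := s) (v := id) (fun a _ b _ h => h) hdeg
  unfold lam
  rw [← hcard, h4]
  apply Finset.sum_congr rfl
  intro e he
  have hroot : eval e P = 0 := by
    have h7 := Multiset.mem_toFinset.1 he
    exact (Polynomial.mem_roots hP.ne_zero).1 h7
  congr 1
  · have h6 := congrArg (eval e) (modByMonic_add_div g P)
    rw [eval_add, eval_mul, hroot, zero_mul, add_zero] at h6
    exact h6
  · have h6 := Lagrange.eval_nodal_derivative_eval_node_eq (v := (id : F → F)) he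
    rw [Lagrange.eval_nodal] at h6
    rw [hPn]
    exact h6.symm

end Pool.Agent.H70.N6
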