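import Pool.Agent.H70.N6.LRa

/-!
# Two quadrics over the reals: the isotropic subspace
-/

set_option autoImplicit false

open Polynomial Matrix ComplexConjugate Pool.Agent.H34.N6

namespace Pool.Agent.H70.N6

section

variable (P D : ℝ[X]) (t : ℝ)

/-- the weight at a complex root -/
noncomputable def gc (z : ℂ) : ℂ := aeval z (D * (X - C t)) / aeval z (derivative P)

/-- the weight at a real root -/
noncomputable def gr (e : ℝ) : ℝ := eval e (D * (X - C t)) / eval e (derivative P)

theorem gc_ofReal (e : ℝ) : gc P D t (e : ℂ) = (gr P D t e : ℂ) := by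
  unfold gc gr
  have h : ∀ g : ℝ[X], aeval (e : ℂ) g = ((eval e g : ℝ) : ℂ) := by
    intro g
    have := aeval_algebraMap_apply ℂ e g
    rw [coe_aeval_eq_eval] at this
    exact this
  rw [h, h, Complex.ofReal_div]

/-- the value at a complex number, as a linear map -/
noncomputable def ev (z : ℂ) : (Fin 7 → ℝ) →ₗ[ℝ] ℂ := (aeval z).toLinearMap ∘ₗ polL

theorem ev_apply (z : ℂ) (x : Fin 7 → ℝ) : ev z x = aeval z (pol x) := rfl

theorem ev_ofReal (e : ℝ) (x : Fin 7 → ℝ) : ev (e : ℂ) x = ((eval e (pol x) : ℝ) : ℂ) := by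
  rw [ev_apply]
  have := aeval_algebraMap_apply ℂ e (pol x)
  rw [coe_aeval_eq_eval] at this
  exact this

theorem aeval_cj (g : ℝ[X]) (z : ℂ) : aeval (conj z) g = conj (aeval z g) := by
  have h := Polynomial.aeval_algHom_apply (Complex.conjAe.toAlgHom : ℂ →ₐ[ℝ] ℂ) z g
  exact h

variable {P}

/-- the complex roots -/
noncomputable def rc (P : ℝ[X]) : Finset ℂ := (P.map (algebraMap ℝ ℂ)).roots.toFinset

theorem mem_rc (hP : P.Monic) (z : ℂ) : z ∈ rc P ↔ aeval z P = 0 := by
  unfold rc
  rw [Multiset.mem_toFinset, mem_roots (hP.map _).ne_zero, IsRoot.def, eval_map_algebraMap]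

theorem card_rc (hs : P.Separable) : (rc P).card = P.natDegree := by
  unfold rc
  have h1 : (P.map (algebraMap ℝ ℂ)).roots.Nodup := nodup_roots hs.map
  rw [Multiset.toFinset_card_of_nodup h1]
  have h2 := (IsAlgClosed.splits (P.map (algebraMap ℝ ℂ))).natDegree_eq_card_roots
  rw [← h2, natDegree_map]

/-- the real roots -/
theorem rc_real (hP : P.Monic) :
    (rc P).filter (fun z => z.im = 0) = P.roots.toFinset.image (fun e : ℝ => (e : ℂ)) := by
  ext z
  rw [Finset.mem_filter, Finset.mem_image, mem_rc hP]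
  have h0 : ∀ e : ℝ, aeval (e : ℂ) P = ((eval e P : ℝ) : ℂ) := by
    intro e
    have := aeval_algebraMap_apply ℂ e P
    rw [coe_aeval_eq_eval] at this
    exact this
  constructor
  · rintro ⟨h1, h2⟩
    have h3 : ((z.re : ℝ) : ℂ) = z := Complex.ext rfl (by simp [h2])
    refine ⟨z.re, ?_, h3⟩
    rw [← h3, h0] at h1
    rw [Multiset.mem_toFinset, mem_roots hP.ne_zero, IsRoot.def]
    exact_mod_cast h1
  · rintro ⟨e, he, rfl⟩
    rw [Multiset.mem_toFinset, mem_roots hP.ne_zero, IsRoot.def] at he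
    rw [h0, he]
    simp

theorem card_half (hP : P.Monic) :
    ((rc P).filter (fun z => z.im < 0)).card = ((rc P).filter (fun z => 0 < z.im)).card := by
  apply Finset.card_nbij' (fun z => conj z) (fun z => conj z)
  · intro z hz
    rw [Finset.mem_coe, Finset.mem_filter, mem_rc hP] at hz ⊢
    refine ⟨?_, ?_⟩
    · rw [aeval_cj, hz.1, map_zero]
    · rw [Complex.conj_im]
      linarith [hz.2]
  · intro z hz
    rw [Finset.mem_coe, Finset.mem_filter, mem_rc hP] at hz ⊢
    refine ⟨?_, ?_⟩
    · rw [aeval_cj, hz.1, map_zero]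
    · rw [Complex.conj_im]
      linarith [hz.2]
  · intro z _
    exact Complex.conj_conj z
  · intro z _
    exact Complex.conj_conj z

/-- sums over the complex roots -/
theorem sum_rc (hP : P.Monic) (f : ℂ → ℝ) :
    ∑ z ∈ rc P, f z = ∑ e ∈ P.roots.toFinset, f e + (∑ z ∈ (rc P).filter (fun z => 0 < z.im), f z +
      ∑ z ∈ (rc P).filter (fun z => z.im < 0), f z) := by
  rw [← Finset.sum_filter_add_sum_filter_not (rc P) (fun z => z.im = 0) f, rc_real hP,
    Finset.sum_image (fun a _ b _ h => Complex.ofReal_injective h)]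
  congr 1
  rw [← Finset.sum_filter_add_sum_filter_not ((rc P).filter (fun z => ¬ z.im = 0))
    (fun z => 0 < z.im) f, Finset.filter_filter, Finset.filter_filter]
  congr 1
  · apply Finset.sum_congr _ fun _ _ => rfl
    apply Finset.filter_congr
    intro z _
    exact ⟨fun h => h.2, fun h => ⟨h.ne', h⟩⟩
  · apply Finset.sum_congr _ fun _ _ => rfl
    apply Finset.filter_congr
    intro z _
    constructor
    · rintro ⟨h1, h2⟩
      exact lt_of_le_of_ne (not_lt.1 h2) h1
    · intro h
      exact ⟨h.ne, not_lt.2 h.le⟩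

theorem card_eq (hP : P.Monic) (hs : P.Separable) :
    P.natDegree = P.roots.toFinset.card + 2 * ((rc P).filter (fun z => 0 < z.im)).card := by
  have h1 := sum_rc hP (fun _ => (1 : ℝ))
  simp only [Finset.sum_const, nsmul_eq_mul, mul_one] at h1
  rw [card_rc hs, card_half hP] at h1
  have h2 : ((P.natDegree : ℕ) : ℝ) = ((P.roots.toFinset.card +
      2 * ((rc P).filter (fun z => 0 < z.im)).card : ℕ) : ℝ) := by
    push_cast
    rw [h1]
    ring
  exact_mod_cast h2

variable (P)

/-- the quadratic form as a sum -/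
theorem lam_re (hP : P.Monic) (hs : P.Separable) (x : Fin 7 → ℝ) :
    lam P (D * (X - C t) * pol x * pol x) = ∑ z ∈ rc P, (gc P D t z * ev z x ^ 2).re := by
  classical
  have h1 := lam_sum_roots (hP.map (algebraMap ℝ ℂ)) (IsAlgClosed.splits _) hs.map
    ((D * (X - C t) * pol x * pol x).map (algebraMap ℝ ℂ))
  rw [lam_map hP] at h1
  have h2 := congrArg Complex.re h1
  rw [Complex.re_sum] at h2
  have h3 : (algebraMap ℝ ℂ (lam P (D * (X - C t) * pol x * pol x))).re =
      lam P (D * (X - C t) * pol x * pol x) := Complex.ofReal_re _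
  rw [h3] at h2
  rw [h2]
  unfold rc
  apply Finset.sum_congr (by congr)
  intro z _
  congr 1
  rw [eval_map_algebraMap, derivative_map, eval_map_algebraMap, ev_apply]
  unfold gc
  rw [map_mul, map_mul]
  ring

theorem lam_split (hP : P.Monic) (hs : P.Separable) (x : Fin 7 → ℝ)
    (hx : ∀ z ∈ (rc P).filter (fun z => 0 < z.im), (gc P D t z * ev z x ^ 2).re = 0) :
    lam P (D * (X - C t) * pol x * pol x) =
      ∑ e ∈ P.roots.toFinset, gr P D t e * (eval e (pol x)) ^ 2 := by
  rw [lam_re P D t hP hs, sum_rc hP, Finset.sum_eq_zero hx, zero_add]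
  have h1 : ∑ z ∈ (rc P).filter (fun z => z.im < 0), (gc P D t z * ev z x ^ 2).re = 0 := by
    apply Finset.sum_eq_zero
    intro z hz
    rw [Finset.mem_filter, mem_rc hP] at hz
    have h2 : conj z ∈ (rc P).filter (fun z => 0 < z.im) := by
      rw [Finset.mem_filter, mem_rc hP]
      refine ⟨?_, ?_⟩
      · rw [aeval_cj, hz.1, map_zero]
      · rw [Complex.conj_im]
        linarith [hz.2]
    have h3 := hx _ h2
    have h4 : gc P D t (conj z) * ev (conj z) x ^ 2 = conj (gc P D t z * ev z x ^ 2) := by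
      rw [ev_apply, ev_apply]
      unfold gc
      rw [aeval_cj, aeval_cj, aeval_cj]
      simp only [map_mul, map_pow, map_div₀]
    rw [h4, Complex.conj_re] at h3
    exact h3
  rw [h1, add_zero]
  apply Finset.sum_congr rfl
  intro e _
  rw [gc_ofReal, ev_ofReal, ← Complex.ofReal_pow, ← Complex.ofReal_mul, Complex.ofReal_re]

end

end Pool.Agent.H70.N6
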