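import Pool.Agent.H70.N6.Def

/-!
# Small parameters
-/

set_option autoImplicit false

open Matrix Polynomial Pool.Agent.H34.N6 Filter
open scoped Topology

namespace Pool.Agent.H70.N6

theorem norm_eq_of_close {F : Type*} [NormedField F] [IsUltrametricDist F] {x y : F}
    (h : ‖x - y‖ < ‖y‖) : ‖x‖ = ‖y‖ := by
  have e : x = (x - y) + y := by ring
  rw [e, IsUltrametricDist.norm_add_eq_max_of_norm_ne_norm h.ne, max_eq_right h.le]

theorem ev_norm_eq {F : Type*} [NormedField F] [IsUltrametricDist F] (g : F → F)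
    (hg : Continuous g) (y : F) (h0 : g 0 = y) (hy : y ≠ 0) : ∀ᶠ x in 𝓝 (0 : F), ‖g x‖ = ‖y‖ := by
  have ht : Tendsto (fun x => ‖g x - y‖) (𝓝 0) (𝓝 0) := by
    have hc : Continuous fun x => ‖g x - y‖ := by fun_prop
    have := hc.tendsto 0
    rw [h0, sub_self, norm_zero] at this
    exact this
  filter_upwards [ht.eventually_lt_const (norm_pos_iff.2 hy)] with x hx
  exact norm_eq_of_close hx

theorem ev_norm_lt {F : Type*} [NormedField F] (g : F → F)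
    (hg : Continuous g) (h0 : g 0 = 0) (ε : ℝ) (hε : 0 < ε) : ∀ᶠ x in 𝓝 (0 : F), ‖g x‖ < ε := by
  have ht : Tendsto (fun x => ‖g x‖) (𝓝 0) (𝓝 0) := by
    have hc : Continuous fun x => ‖g x‖ := by fun_prop
    have := hc.tendsto 0
    rw [h0, norm_zero] at this
    exact this
  exact ht.eventually_lt_const hε

theorem small {F : Type*} [NontriviallyNormedField F] [IsUltrametricDist F] (c : F)
    (hc0 : c ≠ 0) (hc : ∀ x : F, ‖x‖ ^ 2 ≠ ‖c‖) (h2 : (2 : F) ≠ 0) (d : F) (hd : d ≠ 0)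
    (A1 A2 A4 A5 A6 A7 w : F) : ∃ a b : F, ∀ Q : Matrix (Fin 7) (Fin 7) F,
      Q = CT a b * QQ A1 A2 A4 A5 A6 A7 w * (CT a b)ᵀ →
      Irreducible (quart Q d) ∧ (quart Q d).natDegree = 4 ∧ TI (blk Q) 1 := by
  set h : F := d / 2 with hh
  have hh0 : h ≠ 0 := div_ne_zero hd h2
  have hv : (2 : F) * c * h ^ 2 ≠ 0 := mul_ne_zero (mul_ne_zero h2 hc0) (pow_ne_zero 2 hh0)
  set v : F := 2 * c * h ^ 2 with hvd
  have hvn : 0 < ‖v‖ := norm_pos_iff.2 hv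
  set R : ℝ := ‖(2 : F)‖ / ‖v‖ with hR
  have hR0 : 0 < R := div_pos (norm_pos_iff.2 h2) hvn
  set r : ℝ := Real.sqrt (Real.sqrt R) with hr
  have hr0 : 0 < r := Real.sqrt_pos.2 (Real.sqrt_pos.2 hR0)
  have hr2 : r ^ 2 = Real.sqrt R := Real.sq_sqrt (Real.sqrt_nonneg _)
  have hr4 : r ^ 4 = R := by
    calc r ^ 4 = (r ^ 2) ^ 2 := by ring
      _ = R := by rw [hr2, Real.sq_sqrt hR0.le]
  have hs : ∀ x : F, ‖x‖ ≠ r ^ 2 := by
    intro x hx
    have h5 : ‖x‖ ^ 2 = R := by rw [hx, ← hr4]; ring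
    have h6 : ‖c‖ * ‖h‖ ^ 2 * ‖x‖ ^ 2 = 1 := by
      rw [h5, hR, hvd, norm_mul, norm_mul, norm_pow]
      have h7 : ‖(2 : F)‖ ≠ 0 := norm_ne_zero_iff.2 h2
      have h8 : ‖c‖ ≠ 0 := norm_ne_zero_iff.2 hc0
      have h9 : ‖h‖ ≠ 0 := norm_ne_zero_iff.2 hh0
      field_simp
    refine hc (h * x)⁻¹ ?_
    rw [norm_inv, norm_mul]
    rw [inv_pow]
    exact inv_eq_of_mul_eq_one_left (by linear_combination h6)
  have e0 := ev_norm_eq (fun x => k0 c h A1 A4 A7 w x) (by unfold k0; fun_prop) 2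
    (by simp [k0]) h2
  have e4 := ev_norm_eq (fun x => k4 c h A1 w x) (by unfold k4; fun_prop) v
    (by simp only [k4, hvd]; ring) hv
  have e1 := ev_norm_lt (fun x => k1 c h A1 A2 A4 A6 w x) (by unfold k1; fun_prop)
    (by simp [k1]) (r ^ 3 * ‖v‖) (by positivity)
  have e2 := ev_norm_lt (fun x => k2 c h A1 A2 A4 A5 w x) (by unfold k2; fun_prop)
    (by simp [k2]) (r ^ 2 * ‖v‖) (by positivity)
  have e3 := ev_norm_lt (fun x => k3 c h A1 A2 w x) (by unfold k3; fun_prop)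
    (by simp [k3]) (r * ‖v‖) (by positivity)
  have e5 : ∀ᶠ x in 𝓝[≠] (0 : F), x ≠ 0 := self_mem_nhdsWithin
  obtain ⟨x, ⟨⟨⟨⟨hx0, hx4⟩, hx1⟩, hx2⟩, hx3⟩, hx⟩ :=
    (((((e0.and e4).and e1).and e2).and e3).filter_mono nhdsWithin_le_nhds |>.and e5).exists
  refine ⟨x, c * x, fun Q hQ => ?_⟩
  set K0 := k0 c h A1 A4 A7 w x
  set K1 := k1 c h A1 A2 A4 A6 w x
  set K2 := k2 c h A1 A2 A4 A5 w x
  set K3 := k3 c h A1 A2 w x
  set K4 := k4 c h A1 w x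
  have hK4 : K4 ≠ 0 := norm_ne_zero_iff.1 (by rw [hx4]; exact hvn.ne')
  have hq := quart_def c d h x A1 A2 A4 A5 A6 A7 w hh.symm Q hQ
  have hq2 : quart Q d = C (x * K4) * (X ^ 4 + C (K3 / K4) * X ^ 3 + C (K2 / K4) * X ^ 2 +
      C (K1 / K4) * X + C (K0 / K4)) := by
    have f : ∀ y : F, C K4 * C (y / K4) = C y := fun y => by
      rw [← C_mul, mul_div_cancel₀ _ hK4]
    rw [hq, C_mul]
    linear_combination (-C x * X ^ 3) * f K3 - (C x * X ^ 2) * f K2 - (C x * X) * f K1 -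
      C x * f K0
  have hn : ∀ (y : F) (M : ℝ), ‖y‖ < M * ‖v‖ → ‖y / K4‖ ≤ M := fun y M hy => by
    rw [norm_div, hx4, div_le_iff₀ hvn]
    exact hy.le
  have hirr := cri (K0 / K4) (K1 / K4) (K2 / K4) (K3 / K4) r hr0
    (by rw [norm_div, hx0, hx4, hr4]) (hn _ _ hx1) (hn _ _ hx2) (hn _ _ hx3) hs
  have hu : x * K4 ≠ 0 := mul_ne_zero hx hK4
  refine ⟨?_, ?_, ti_def c x A1 A2 A4 A5 A6 A7 w Q hQ⟩
  · rw [hq2, irreducible_isUnit_mul (isUnit_C.2 hu.isUnit)]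
    exact hirr
  · rw [hq2, natDegree_C_mul hu]
    compute_degree!

end Pool.Agent.H70.N6
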