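import Mathlib

/-!
# The Gram matrices of the explicit frame
-/

set_option autoImplicit false

open Matrix

namespace Pool.Agent.H70.N6

section tab

variable {F : Type*} [Field F]

/-- the coefficient `m₁` -/
def cm1 (p : Fin 7 → F) : F := (p 1 + 1) / 2

/-- the coefficient `m₃` -/
def cm3 (p : Fin 7 → F) : F := (p 6 + p 0) / 2

/-- the coefficient `m₂` -/
def cm2 (p : Fin 7 → F) : F := (p 0 * p 2 - (cm1 p - p 1) ^ 2) / (2 * p 0)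

/-- the values of the functional at the powers -/
def tt (p : Fin 7 → F) : ℕ → F
  | 1 => p 2 / p 0 ^ 2 - p 1 ^ 2 / p 0 ^ 3
  | 2 => p 1 / p 0 ^ 2
  | 3 => -1 / p 0
  | 10 => 1
  | 11 => -p 6
  | 12 => p 6 ^ 2 - p 5
  | 13 => -p 6 * (p 6 ^ 2 - p 5) + p 5 * p 6 - p 4
  | _ => 0

/-- the coefficient `a₁` -/
def ca1 (p : Fin 7 → F) : F :=
  -(tt p 13 + 2 * p 6 * tt p 12 + (p 6 ^ 2 + 2 * (p 5 - cm2 p)) * tt p 11) / 2 -
    (p 5 - cm2 p) * p 6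

/-- the rows are the vectors of the frame, in powers of `e` from `-2` to `4` -/
def M0 (p : Fin 7 → F) : Matrix (Fin 7) (Fin 7) F :=
  !![0, 0, 0, 1, 0, 0, 0;
     0, p 0, cm1 p, cm2 p, cm3 p, 1, 0;
     p 0, cm1 p, cm2 p, cm3 p, 1, 0, 0;
     0, -p 0, cm1 p - p 1, 0, -p 0, 0, 0;
     0, 0, cm3 p, ca1 p, p 5 - cm2 p, p 6, 1;
     0, 0, 0, 0, 1, 0, 0;
     0, 0, 1, 0, 0, 0, 0]

/-- the Hankel matrix of `f` -/
def H1 (p : Fin 7 → F) : Matrix (Fin 7) (Fin 7) F :=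
  !![tt p 1, tt p 2, tt p 3, 0, 0, 0, 0;
     tt p 2, tt p 3, 0, 0, 0, 0, 0;
     tt p 3, 0, 0, 0, 0, 0, 0;
     0, 0, 0, 0, 0, 0, 1;
     0, 0, 0, 0, 0, 1, tt p 11;
     0, 0, 0, 0, 1, tt p 11, tt p 12;
     0, 0, 0, 1, tt p 11, tt p 12, tt p 13]

/-- the Hankel matrix of `q`, with the value at `e ^ (-4)` -/
def H0 (p : Fin 7 → F) (t0 : F) : Matrix (Fin 7) (Fin 7) F :=
  !![t0, tt p 1, tt p 2, tt p 3, 0, 0, 0;
     tt p 1, tt p 2, tt p 3, 0, 0, 0, 0;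
     tt p 2, tt p 3, 0, 0, 0, 0, 0;
     tt p 3, 0, 0, 0, 0, 0, 0;
     0, 0, 0, 0, 0, 0, 1;
     0, 0, 0, 0, 0, 1, tt p 11;
     0, 0, 0, 0, 1, tt p 11, tt p 12]

/-- the Gram matrix of `f` in the frame -/
def G0 (c : F) : Matrix (Fin 7) (Fin 7) F :=
  !![0, 0, 0, 0, 1, 0, 0;
     0, 0, 0, 0, 0, 1, 0;
     0, 0, 0, 0, 0, 0, -1;
     0, 0, 0, -c, 0, 0, 0;
     1, 0, 0, 0, 0, 0, 0;
     0, 1, 0, 0, 0, 0, 0;
     0, 0, -1, 0, 0, 0, 0]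

/-- the product of the frame with the Hankel matrix of `f` -/
def L1 (p : Fin 7 → F) : Matrix (Fin 7) (Fin 7) F :=
  !![0, 0, 0, 0, 0, 0, 1;
     p 0 * tt p 2 + cm1 p * tt p 3, p 0 * tt p 3, 0, 0, 1, cm3 p + tt p 11,
       cm2 p + cm3 p * tt p 11 + tt p 12;
     p 0 * tt p 1 + cm1 p * tt p 2 + cm2 p * tt p 3, p 0 * tt p 2 + cm1 p * tt p 3,
       p 0 * tt p 3, 0, 0, 1, cm3 p + tt p 11;
     -p 0 * tt p 2 + (cm1 p - p 1) * tt p 3, -p 0 * tt p 3, 0, 0, 0, -p 0, -p 0 * tt p 11;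
     cm3 p * tt p 3, 0, 0, 1, p 6 + tt p 11, p 5 - cm2 p + p 6 * tt p 11 + tt p 12,
       ca1 p + (p 5 - cm2 p) * tt p 11 + p 6 * tt p 12 + tt p 13;
     0, 0, 0, 0, 0, 1, tt p 11;
     tt p 3, 0, 0, 0, 0, 0, 0]

theorem mul_L1 (p : Fin 7 → F) : M0 p * H1 p = L1 p := by
  ext i j
  fin_cases i <;> fin_cases j <;>
    simp [Matrix.mul_apply, Fin.sum_univ_seven, M0, H1, L1]

theorem mul_G0 (p : Fin 7 → F) (h2 : (2 : F) ≠ 0) (hp : p 0 ≠ 0) :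
    M0 p * H1 p * (M0 p)ᵀ = G0 (p 0) := by
  rw [mul_L1]
  ext i j
  fin_cases i <;> fin_cases j <;>
    simp [Matrix.mul_apply, Fin.sum_univ_seven, M0, G0, L1, Matrix.transpose_apply, tt, ca1, cm1,
      cm2, cm3] <;> field_simp <;> ring

end tab

end Pool.Agent.H70.N6
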