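import Pool.Agent.H70.N6.TabQ
import Pool.Agent.H34.N6.Defs

/-!
# The deformed frame
-/

set_option autoImplicit false

open Matrix Polynomial Pool.Agent.H34.N6

namespace Pool.Agent.H70.N6

section tab

variable {F : Type*} [Field F]

theorem CT_G0 (a b c : F) : CT a b * G0 c * (CT a b)ᵀ = JJ (-c) := by
  have h1 : CT a b * G0 c =
      !![0, a * b, 0, 0, 1, 0, -a;
         0, 0, -b, 0, 0, 1, 0;
         0, b, 0, 0, 0, 0, -1;
         0, 0, 0, -c, 0, 0, 0;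
         1, 0, 0, 0, 0, 0, 0;
         0, 1, 0, 0, 0, 0, 0;
         -a, 0, 1, 0, 0, 0, 0] := by
    ext i j
    fin_cases i <;> fin_cases j <;>
      simp [Matrix.mul_apply, Fin.sum_univ_seven, CT, G0]
  rw [h1]
  ext i j
  fin_cases i <;> fin_cases j <;>
    simp [Matrix.mul_apply, Fin.sum_univ_seven, CT, JJ, Matrix.transpose_apply] <;> ring

/-- the Gram matrix of `q` in the deformed frame, relevant entries -/
theorem CT_QQ (a b A1 A2 A4 A5 A6 A7 w : F) (Q : Matrix (Fin 7) (Fin 7) F)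
    (hQ : Q = CT a b * QQ A1 A2 A4 A5 A6 A7 w * (CT a b)ᵀ) :
    Qᵀ = Q ∧ Q 0 0 = -2 * a + a ^ 2 * A1 ∧ Q 0 1 = a * b * w ∧ Q 1 1 = -2 * b ∧
    Q 0 2 = -1 + a * A1 ∧ Q 1 2 = b * w ∧ Q 2 2 = A1 ∧ Q 0 3 = a * A2 ∧ Q 1 3 = b ∧
    Q 2 3 = A2 ∧ Q 3 3 = A5 ∧ Q 0 6 = -a * w - a ^ 2 * A4 - a ^ 2 * b ∧ Q 1 6 = 1 ∧
    Q 2 6 = -w - a * A4 - a * b ∧ Q 3 6 = -1 - a * A6 ∧ Q 6 6 = a ^ 2 * A7 := by
  have h1 : CT a b * QQ A1 A2 A4 A5 A6 A7 w =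
      !![-a, 0, -1 + a * A1, a * A2, a * A4 + a * b, 0, a * w;
         0, -b, b * w, b, 0, 0, -1;
         -1, 0, A1, A2, A4 + b, 0, w;
         0, 0, A2, A5, A6, 0, 1;
         0, 0, A4, A6, A7, 1, 0;
         0, 0, 0, 0, 1, 0, 0;
         0, 1, -(a * A4) - w, -(a * A6) - 1, -(a * A7), -a, 0] := by
    ext i j
    fin_cases i <;> fin_cases j <;>
      simp [Matrix.mul_apply, Fin.sum_univ_seven, CT, QQ] <;> ring
  have hs : (QQ A1 A2 A4 A5 A6 A7 w)ᵀ = QQ A1 A2 A4 A5 A6 A7 w := by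
    ext i j
    fin_cases i <;> fin_cases j <;> rfl
  refine ⟨?_, ?_⟩
  · rw [hQ, Matrix.transpose_mul, Matrix.transpose_mul, Matrix.transpose_transpose, hs,
      Matrix.mul_assoc]
  rw [hQ, h1]
  refine ⟨?_, ?_, ?_, ?_, ?_, ?_, ?_, ?_, ?_, ?_, ?_, ?_, ?_, ?_, ?_⟩ <;>
    simp [Matrix.mul_apply, Fin.sum_univ_seven, CT, Matrix.transpose_apply] <;> ring

end tab

end Pool.Agent.H70.N6
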