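import Pool.Agent.H70.N6.Tab

/-!
# The product of the frame with the Hankel matrix of `q`
-/

set_option autoImplicit false

open Matrix

namespace Pool.Agent.H70.N6

section tab

variable {F : Type*} [Field F]

/-- the product of the frame with the Hankel matrix of `q` -/
def L0 (p : Fin 7 → F) (t0 : F) : Matrix (Fin 7) (Fin 7) F :=
  !![tt p 3, 0, 0, 0, 0, 0, 0;
     p 0 * tt p 1 + cm1 p * tt p 2 + cm2 p * tt p 3, p 0 * tt p 2 + cm1 p * tt p 3,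
       p 0 * tt p 3, 0, 0, 1, cm3 p + tt p 11;
     p 0 * t0 + cm1 p * tt p 1 + cm2 p * tt p 2 + cm3 p * tt p 3,
       p 0 * tt p 1 + cm1 p * tt p 2 + cm2 p * tt p 3, p 0 * tt p 2 + cm1 p * tt p 3,
       p 0 * tt p 3, 0, 0, 1;
     -p 0 * tt p 1 + (cm1 p - p 1) * tt p 2, -p 0 * tt p 2 + (cm1 p - p 1) * tt p 3,
       -p 0 * tt p 3, 0, 0, 0, -p 0;
     cm3 p * tt p 2 + ca1 p * tt p 3, cm3 p * tt p 3, 0, 0, 1, p 6 + tt p 11,
       p 5 - cm2 p + p 6 * tt p 11 + tt p 12;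
     0, 0, 0, 0, 0, 0, 1;
     tt p 2, tt p 3, 0, 0, 0, 0, 0]

theorem mul_L0 (p : Fin 7 → F) (t0 : F) : M0 p * H0 p t0 = L0 p t0 := by
  ext i j
  fin_cases i <;> fin_cases j <;>
    simp [Matrix.mul_apply, Fin.sum_univ_seven, M0, H0, L0]

end tab

end Pool.Agent.H70.N6
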