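import Pool.Agent.H34.N6.Defs

/-!
# Two quadrics in `ℙ⁶`: local planes, statement for every parameter
-/

set_option autoImplicit false

open Polynomial Matrix Pool.Agent.H32.QC Pool.Agent.H34.N6

namespace Pool.Agent.H70.N6

/-- local frames with irreducible quartic at every parameter -/
def T_PLX : Prop := ∀ (F : Type) [NontriviallyNormedField F] [IsUltrametricDist F]
  [ProperSpace F] [CharZero F] (P D : F[X]), P.Monic → P.natDegree = 7 →
  IsCoprime P D → SqMod P D → ∀ t : F, eval t P ≠ 0 → LocPlane (ft P D t) (gA P D 0)

end Pool.Agent.H70.N6
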